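import Pool.Agent.T9h57.TP.Lin
import Pool.Agent.H373R2.T7.Sys8

set_option autoImplicit false

/-! Systems of linear forms with constant terms in the residue classes of regular moduli: from the von Mangoldt
function to the sieve model. -/

namespace Pool.Agent.T9h57.TP

open Finset
open Pool.Agent.T9h57.GP (RegL)
open Pool.Agent.H373R2.T7
open Pool.Agent.Y614.GJ.Core (ev_log)

lemma q_le {X q : ℕ} {ρ : ℝ} (hX : 1 ≤ X) (hρ : 0 < ρ) (h : (q : ℝ) ≤ (X : ℝ) ^ (2 / 3 - ρ)) : q ≤ X := by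
  have hX1r : (1 : ℝ) ≤ X := by exact_mod_cast hX
  have h4 : (q : ℝ) ≤ (X : ℝ) ^ (1 : ℝ) := h.trans (Real.rpow_le_rpow_of_exponent_le hX1r (by linarith))
  rw [Real.rpow_one] at h4
  exact_mod_cast h4

lemma al_le {X q r v : ℕ} (hq : q ≤ X) (hr : r < q) (hv : v ∈ Icc 1 (X / q + 1)) : al r q v ≤ 2 * X := by
  rw [mem_Icc] at hv
  unfold al
  have h5 : q * (v - 1) ≤ X := by
    have h6 : v - 1 ≤ X / q := Nat.sub_le_iff_le_add.2 hv.2
    calc q * (v - 1) ≤ q * (X / q) := Nat.mul_le_mul_left _ h6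
      _ ≤ X := Nat.mul_div_le X q
  omega

/-- the parameters of the tuples with entries in given residue classes -/
def box {k : ℕ} (X : ℕ) (q : Fin k → ℕ) : Finset (Fin k → ℕ) := Fintype.piFinset (fun i => Icc 1 (X / q i + 1))

/-- the tuple with the given parameters -/
def pt {k : ℕ} (r q m : Fin k → ℕ) (i : Fin k) : ℕ := al (r i) (q i) (m i)

/-- the moduli are regular -/
def Reg {k : ℕ} (M X C K U : ℕ) (ρ : ℝ) (r q : Fin k → ℕ) : Prop :=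
  ∀ i, 1 ≤ q i ∧ (q i : ℝ) ≤ (X : ℝ) ^ (2 / 3 - ρ) ∧ RegL ((M + 2) * X) C K U (q i) ∧ r i < q i

theorem cls_diff (k M U : ℕ) (ρ : ℝ) (hρ : 0 < ρ) (hρ1 : ρ ≤ 1 / 3) : ∃ C₀ U₂ : ℕ, ∀ K : ℕ, ∃ B : ℕ, ∀ E : ℕ,
    ∃ X₀ : ℕ, ∀ X : ℕ, X₀ ≤ X → ∀ z : ℕ, Real.log X ^ B ≤ z → (z : ℝ) ≤ Real.log X ^ E →
    ∀ r q : Fin k → ℕ, Reg M X C₀ K U₂ ρ r q →
    ∀ c : Fin k → ℕ, (∀ i, 1 ≤ c i ∧ c i ≤ M) → ∀ σ : Fin k → ℤ, (∀ i, σ i = 1 ∨ σ i = -1) → ∀ G : ℕ → ℝ,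
    (∀ n ∈ Icc 1 X, |G n| ≤ Real.log X) →
      ∑ m ∈ box X q, |∑ n ∈ Icc 1 X, G n *
        (∏ i, lamI ((pt r q m i : ℤ) + σ i * (c i * n)) - ∏ i, lamzI z ((pt r q m i : ℤ) + σ i * (c i * n)))| ≤
      X * (∏ i, ((X / q i + 1 : ℕ) : ℝ)) / Real.log X ^ U := by
  classical
  obtain ⟨C₀, U₂, h0⟩ := hone_lin M (U + k + 2) ρ hρ hρ1
  refine ⟨C₀, U₂, fun K => ?_⟩
  obtain ⟨B, hB⟩ := h0 K
  refine ⟨B, fun E => ?_⟩
  obtain ⟨N₁, h1⟩ := hB E
  obtain ⟨M2, hM2⟩ : ∃ M2 : ℕ, M2 = M + 2 := ⟨_, rfl⟩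
  obtain ⟨X₃, h3⟩ := Filter.eventually_atTop.1 (ev_log 1 (s := 1) (by norm_num) ((k : ℝ) * 2 ^ k + M2 + 100))
  obtain ⟨X₄, h4⟩ := Vz_inv_small E
  refine ⟨N₁ + X₃ + X₄ + 3, fun X hX z hz1 hz2 r q hR c hc σ hσ G hG => ?_⟩
  have hX1 : 1 ≤ X := by omega
  have hX0 : (0 : ℝ) < X := by exact_mod_cast hX1
  have hX1r : (1 : ℝ) ≤ X := by exact_mod_cast hX1
  obtain ⟨hLb, -⟩ := h3 X (by omega)
  have hM2r : (2 : ℝ) ≤ M2 := by rw [hM2]; push_cast; linarith [Nat.cast_nonneg (α := ℝ) M]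
  have hk2 : (0 : ℝ) ≤ (k : ℝ) * 2 ^ k := by positivity
  have hL1 : 1 ≤ Real.log X := by linarith
  have hz : 1 ≤ z := by
    have : (1 : ℝ) ≤ z := (one_le_pow₀ hL1).trans hz1
    exact_mod_cast this
  have hV := h4 X (by omega) z hz hz2
  have c1 := h1 X (by omega) z hz1 hz2
  obtain ⟨L, hLd⟩ : ∃ L, L = Real.log (X : ℝ) := ⟨_, rfl⟩
  rw [← hLd] at hLb hL1 hV c1 hG ⊢
  have hL0 : 0 < L := by linarith
  have hqX : ∀ i, q i ≤ X := fun i => q_le hX1 hρ (hR i).2.1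
  have hup : ∀ i, ∀ n ∈ Icc 1 X, ∀ v ∈ Icc 1 (X / q i + 1),
      (((al (r i) (q i) v : ℤ) + σ i * (c i * n) : ℤ) : ℝ) ≤ M2 * X := by
    intro i n hn v hv
    rw [mem_Icc] at hn
    have h5 := al_le (hqX i) (hR i).2.2.2 hv
    have h6 : c i * n ≤ M * X := Nat.mul_le_mul (hc i).2 hn.2
    have h7 : σ i * ((c i : ℤ) * n) ≤ ((M * X : ℕ) : ℤ) := by
      have h8 : ((c i * n : ℕ) : ℤ) ≤ ((M * X : ℕ) : ℤ) := by exact_mod_cast h6
      have h9 : (0 : ℤ) ≤ ((c i * n : ℕ) : ℤ) := Int.natCast_nonneg _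
      push_cast at h8 h9 ⊢
      rcases hσ i with h | h
      · rw [h]; linarith
      · rw [h]; linarith
    have h8 : ((al (r i) (q i) v : ℕ) : ℤ) + σ i * ((c i : ℤ) * n) ≤ ((M2 * X : ℕ) : ℤ) := by
      have h9 : ((al (r i) (q i) v : ℕ) : ℤ) ≤ ((2 * X : ℕ) : ℤ) := by exact_mod_cast h5
      have h10 : ((M2 * X : ℕ) : ℤ) = ((M * X : ℕ) : ℤ) + ((2 * X : ℕ) : ℤ) := by
        rw [hM2]; push_cast; ring
      linarith
    have h9 : (((al (r i) (q i) v : ℤ) + σ i * ((c i : ℤ) * n) : ℤ) : ℝ) ≤ (((M2 * X : ℕ) : ℤ) : ℝ) := by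
      exact_mod_cast h8
    refine h9.trans (le_of_eq ?_)
    push_cast
    ring
  have hlog : Real.log (M2 * X) ≤ 2 * L := by
    rw [Real.log_mul (by positivity) hX0.ne', ← hLd]
    have : Real.log (M2 : ℝ) ≤ M2 := (Real.log_le_sub_one_of_pos (by positivity)).trans (by linarith)
    linarith
  have key := tele X (fun i => X / q i + 1) (fun i => Nat.succ_pos _)
    (fun i n v => lamI ((al (r i) (q i) v : ℤ) + σ i * (c i * n)))
    (fun i n v => lamzI z ((al (r i) (q i) v : ℤ) + σ i * (c i * n)))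
    (2 * L) (X / L ^ (U + k + 2)) (by linarith) (by positivity) (by
      intro i n hn v hv
      rw [abs_of_nonneg (lamI_nonneg _)]
      exact (lamI_le _ _ (by nlinarith) (hup i n hn v hv)).trans hlog) (by
      intro i n hn v hv
      rw [abs_of_nonneg (lamzI_nonneg _ _)]
      exact (lamzI_le z _).trans (hV.trans (by linarith))) (by
      intro i K' hK' G' hG'
      exact c1 (q i) (hR i).1 (hR i).2.1 (hR i).2.2.1 (r i) (hR i).2.2.2 (c i) (hc i).1 (hc i).2 (σ i) (hσ i) K' hK' G' hG')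
    univ L hL0 (fun n _ => G n) (by
      intro n hn m _
      exact hG n hn) (by
      intro n m v i _; rfl)
  have e1 : ∑ m ∈ box X q, |∑ n ∈ Icc 1 X, G n *
        (∏ i, lamI ((pt r q m i : ℤ) + σ i * (c i * n)) - ∏ i, lamzI z ((pt r q m i : ℤ) + σ i * (c i * n)))| ≤
      (univ : Finset (Fin k)).card * (L * (2 * L) ^ (univ : Finset (Fin k)).card * (X / L ^ (U + k + 2))) *
        ∏ i, ((X / q i + 1 : ℕ) : ℝ) := key
  refine e1.trans ?_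
  rw [card_univ, Fintype.card_fin]
  have hprod : 0 ≤ ∏ i, ((X / q i + 1 : ℕ) : ℝ) := prod_nonneg fun _ _ => Nat.cast_nonneg _
  calc (k : ℝ) * (L * (2 * L) ^ k * (X / L ^ (U + k + 2))) * ∏ i, ((X / q i + 1 : ℕ) : ℝ)
      = ((k : ℝ) * 2 ^ k / L) * (X * (∏ i, ((X / q i + 1 : ℕ) : ℝ)) / L ^ U) := by
        have e : L ^ (U + k + 2) = L ^ U * L ^ k * L * L := by rw [pow_add, pow_add]; ring
        rw [mul_pow, e]
        field_simp
    _ ≤ 1 * (X * (∏ i, ((X / q i + 1 : ℕ) : ℝ)) / L ^ U) := by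
        apply mul_le_mul_of_nonneg_right _ (by positivity)
        rw [div_le_one hL0]; linarith
    _ = _ := one_mul _

/-- proper prime powers among the values of an injective function -/
lemma pp_inj (X N : ℕ) (hN : 1 ≤ N) (κ : ℕ → ℤ) (hκ : ∀ m ∈ Icc 1 X, κ m ≤ N)
    (hi : ∀ m ∈ Icc 1 X, ∀ m' ∈ Icc 1 X, κ m = κ m' → m = m') :
    ∑ m ∈ Icc 1 X, (lamI (κ m) - lamP (κ m)) ≤ 2 * √(N : ℝ) * Real.log N := by
  have h0 := Chebyshev.psi_sub_theta_le (x := (N : ℝ)) (by exact_mod_cast hN)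
  rw [Chebyshev.psi_sub_theta_eq_sum_not_prime, Nat.floor_natCast] at h0
  refine le_trans ?_ h0
  have h1 : ∀ m ∈ Icc 1 X, lamI (κ m) - lamP (κ m) =
      if 1 ≤ κ m ∧ ¬ (κ m).toNat.Prime then ArithmeticFunction.vonMangoldt (κ m).toNat else 0 := by
    intro m _
    unfold lamI lamP
    by_cases h2 : 1 ≤ κ m
    · by_cases h3 : ((κ m).toNat).Prime
      · rw [if_pos h2, if_pos h3, if_neg (fun h => h.2 h3), ArithmeticFunction.vonMangoldt_apply_prime h3, sub_self]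
      · rw [if_pos h2, if_neg h3, if_pos ⟨h2, h3⟩, sub_zero]
    · have h3 : ¬ ((κ m).toNat).Prime := by
        have : (κ m).toNat = 0 := by omega
        rw [this]; exact Nat.not_prime_zero
      rw [if_neg h2, if_neg h3, if_neg (fun h => h2 h.1), sub_self]
  rw [sum_congr rfl h1, ← sum_filter]
  have h2 : ∑ m ∈ (Icc 1 X).filter (fun m : ℕ => 1 ≤ κ m ∧ ¬ (κ m).toNat.Prime),
      ArithmeticFunction.vonMangoldt (κ m).toNat =
      ∑ j ∈ ((Icc 1 X).filter (fun m : ℕ => 1 ≤ κ m ∧ ¬ (κ m).toNat.Prime)).image (fun m : ℕ => (κ m).toNat),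
      ArithmeticFunction.vonMangoldt j := by
    rw [sum_image]
    intro n hn m hm hnm
    rw [mem_coe, mem_filter] at hn hm
    exact hi n hn.1 m hm.1 (by simp only at hnm; omega)
  rw [h2]
  apply sum_le_sum_of_subset_of_nonneg
  · intro j hj
    rw [mem_image] at hj
    obtain ⟨m, hm, rfl⟩ := hj
    rw [mem_filter] at hm
    have h3 := hκ m hm.1
    rw [mem_filter, mem_Ioc]
    exact ⟨⟨by omega, by omega⟩, hm.2.2⟩
  · intro _ _ _
    exact ArithmeticFunction.vonMangoldt_nonneg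

end Pool.Agent.T9h57.TP
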