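import Pool.Agent.T9h57.TP.Omega

set_option autoImplicit false

/-! Systems of linear polynomials with constant terms in the residue classes of regular moduli: the unweighted
formula with the full constants. -/

namespace Pool.Agent.T9h57.TP

open Finset Filter
open Pool.Agent.H373R2.T7
open Pool.Agent.T9h57.GP (RegL)
open Pool.Agent.Y614.GJ.Core (ev_log)

variable {k : ℕ}

/-- all the values are primes -/
def AllP (s : Bool) (c h : Fin k → ℕ) (n : ℕ) : Prop := (s = true → n.Prime) ∧ ∀ i, (c i * n + h i).Prime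

/-- the reciprocal of the product of the logarithms -/
noncomputable def fw (s : Bool) (c h : Fin k → ℕ) (n : ℕ) : ℝ :=
  1 / ((if s = true then Real.log n else 1) * ∏ i, Real.log ((c i * n + h i : ℕ) : ℝ))

open Classical in
/-- the number of the `n ≤ y` with prime values -/
noncomputable def cntS (s : Bool) (c h : Fin k → ℕ) (y : ℕ) : ℕ := ((Icc 1 y).filter (fun n => AllP s c h n)).card

/-- the formula -/
def GoodS (s : Bool) (c : Fin k → ℕ) (C X : ℕ) (h : Fin k → ℕ) : Prop :=
  ((∀ p : ℕ, p.Prime → om s c h p < p) → ∃ n : ℕ, 1 ≤ n ∧ n ≤ X ∧ AllP s c h n) ∧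
  ∃ CF : ℝ, Tendsto (fun z => PR (om s c h) (k + s.toNat) z) atTop (nhds CF) ∧
    ∀ y : ℕ, y ≤ X → |(cntS s c h y : ℝ) - CF * ∑ n ∈ Icc 2 y, fw s c h n| ≤ X / Real.log X ^ C

/-- Abel's inequality -/
lemma abel_le (f g : ℕ → ℝ) (T : ℝ) (y : ℕ) (hf : ∀ n, 2 ≤ n → 0 ≤ f n ∧ f (n + 1) ≤ f n)
    (hG : ∀ u, u ≤ y → |∑ n ∈ Icc 2 u, g n| ≤ T) : |∑ n ∈ Icc 2 y, g n * f n| ≤ T * f 2 := by
  have hT : 0 ≤ T := (abs_nonneg _).trans (hG 0 (Nat.zero_le _))
  rcases Nat.lt_or_ge y 2 with hy | hy
  · rw [Icc_eq_empty (by omega), sum_empty, abs_zero]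
    exact mul_nonneg hT (hf 2 le_rfl).1
  · have key : ∀ w, 2 ≤ w → ∑ n ∈ Icc 2 w, g n * f n =
        (∑ n ∈ Icc 2 w, g n) * f w + ∑ n ∈ Ico 2 w, (∑ j ∈ Icc 2 n, g j) * (f n - f (n + 1)) := by
      intro w hw
      induction w, hw using Nat.le_induction with
      | base => simp
      | succ w hw ih =>
        rw [sum_Icc_succ_top (by omega), sum_Icc_succ_top (by omega), sum_Ico_succ_top (by omega), ih]
        ring
    have tel : ∀ w, 2 ≤ w → ∑ n ∈ Ico 2 w, (f n - f (n + 1)) = f 2 - f w := by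
      intro w hw
      induction w, hw using Nat.le_induction with
      | base => simp
      | succ w hw ih =>
        rw [sum_Ico_succ_top (by omega), ih]
        ring
    rw [key y hy]
    have h1 : |(∑ n ∈ Icc 2 y, g n) * f y| ≤ T * f y := by
      rw [abs_mul, abs_of_nonneg (hf y hy).1]
      exact mul_le_mul_of_nonneg_right (hG y le_rfl) (hf y hy).1
    have h2 : |∑ n ∈ Ico 2 y, (∑ j ∈ Icc 2 n, g j) * (f n - f (n + 1))| ≤ T * (f 2 - f y) := by
      rw [← tel y hy, mul_sum]
      refine (abs_sum_le_sum_abs _ _).trans (sum_le_sum fun n hn => ?_)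
      rw [mem_Ico] at hn
      have h3 := (hf n hn.1).2
      rw [abs_mul, abs_of_nonneg (sub_nonneg.2 h3)]
      exact mul_le_mul_of_nonneg_right (hG n hn.2.le) (sub_nonneg.2 h3)
    refine (abs_add_le _ _).trans ?_
    linarith

lemma lamP_nat (n : ℕ) : lamP (n : ℤ) = if n.Prime then Real.log n else 0 := by
  unfold lamP
  rw [Int.toNat_natCast]

lemma val_nat (c h n : ℕ) : ((h : ℤ) + 1 * ((c : ℤ) * n)) = ((c * n + h : ℕ) : ℤ) := by push_cast; ring

lemma den_pos (s : Bool) (c h : Fin k → ℕ) (hc : ∀ i, 1 ≤ c i) {n : ℕ} (hn : 2 ≤ n) :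
    (1 / 2 : ℝ) ^ (k + 1) ≤ (if s = true then Real.log n else 1) * ∏ i, Real.log ((c i * n + h i : ℕ) : ℝ) := by
  have hl : ∀ m : ℕ, 2 ≤ m → (1 / 2 : ℝ) ≤ Real.log m := by
    intro m hm
    have h1 : Real.log 2 ≤ Real.log m := Real.log_le_log (by norm_num) (by exact_mod_cast hm)
    have h2 := Real.log_two_gt_d9
    linarith
  have h1 : (1 / 2 : ℝ) ≤ (if s = true then Real.log n else 1) := by
    split_ifs
    · exact hl n hn
    · norm_num
  have h2 : (1 / 2 : ℝ) ^ k ≤ ∏ i, Real.log ((c i * n + h i : ℕ) : ℝ) := by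
    calc (1 / 2 : ℝ) ^ k = ∏ _i : Fin k, (1 / 2 : ℝ) := by rw [prod_const, card_univ, Fintype.card_fin]
      _ ≤ _ := by
        apply Finset.prod_le_prod (fun _ _ => by norm_num)
        intro i _
        apply hl
        have : n ≤ c i * n := Nat.le_mul_of_pos_left n (hc i)
        omega
  rw [pow_succ, mul_comm]
  exact mul_le_mul h1 h2 (by positivity) (by linarith)

lemma fw_nonneg (s : Bool) (c h : Fin k → ℕ) (hc : ∀ i, 1 ≤ c i) {n : ℕ} (hn : 2 ≤ n) : 0 ≤ fw s c h n := by
  unfold fw
  have h1 := den_pos s c h hc hn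
  have h2 : (0 : ℝ) < (1 / 2) ^ (k + 1) := by positivity
  exact (one_div_pos.2 (lt_of_lt_of_le h2 h1)).le

lemma fw_anti (s : Bool) (c h : Fin k → ℕ) (hc : ∀ i, 1 ≤ c i) {n : ℕ} (hn : 2 ≤ n) :
    fw s c h (n + 1) ≤ fw s c h n := by
  unfold fw
  have h1 := den_pos s c h hc hn
  have h2 : (0 : ℝ) < (1 / 2) ^ (k + 1) := by positivity
  apply one_div_le_one_div_of_le (lt_of_lt_of_le h2 h1)
  have hn0 : (0 : ℝ) < n := by exact_mod_cast (by omega : 0 < n)
  apply mul_le_mul
  · split_ifs
    · apply Real.log_le_log hn0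
      push_cast
      linarith
    · exact le_rfl
  · apply Finset.prod_le_prod
    · intro i _
      exact Real.log_natCast_nonneg _
    · intro i _
      apply Real.log_le_log
      · have : n ≤ c i * n := Nat.le_mul_of_pos_left n (hc i)
        exact_mod_cast (by omega : 0 < c i * n + h i)
      · exact_mod_cast (by nlinarith : c i * n + h i ≤ c i * (n + 1) + h i)
  · exact prod_nonneg fun i _ => Real.log_natCast_nonneg _
  · split_ifs
    · exact Real.log_natCast_nonneg _
    · norm_num

lemma fw_two (s : Bool) (c h : Fin k → ℕ) (hc : ∀ i, 1 ≤ c i) : fw s c h 2 ≤ 2 ^ (k + 1) := by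
  unfold fw
  have h1 := den_pos s c h hc (le_refl 2)
  have h2 : (0 : ℝ) < (1 / 2) ^ (k + 1) := by positivity
  have h3 := one_div_le_one_div_of_le h2 h1
  refine h3.trans (le_of_eq ?_)
  rw [one_div_pow, one_div_one_div]

/-- the weight of a prime value -/
lemma theta_fw (s : Bool) (c h : Fin k → ℕ) (hc : ∀ i, 1 ≤ c i) {n : ℕ} (hn : 2 ≤ n) [Decidable (AllP s c h n)] :
    (wS s n * ∏ i, lamP ((h i : ℤ) + 1 * (c i * n))) * fw s c h n = if AllP s c h n then 1 else 0 := by
  have h1 := den_pos s c h hc hn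
  have h2 : (0 : ℝ) < (1 / 2) ^ (k + 1) := by positivity
  have h3 : (if s = true then Real.log n else 1) * ∏ i, Real.log ((c i * n + h i : ℕ) : ℝ) ≠ 0 :=
    (lt_of_lt_of_le h2 h1).ne'
  simp only [val_nat, lamP_nat]
  split_ifs with hA
  · have e1 : ∏ i, (if (c i * n + h i).Prime then Real.log ((c i * n + h i : ℕ) : ℝ) else 0) =
        ∏ i, Real.log ((c i * n + h i : ℕ) : ℝ) := prod_congr rfl fun i _ => if_pos (hA.2 i)
    have e2 : wS s n = if s = true then Real.log n else 1 := by
      unfold wS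
      by_cases hs : s = true
      · rw [if_pos hs, if_pos hs, lamP_nat, if_pos (hA.1 hs)]
      · rw [if_neg hs, if_neg hs]
    rw [e1, e2]
    unfold fw
    exact mul_one_div_cancel h3
  · unfold AllP at hA
    rw [not_and_or] at hA
    rcases hA with hA | hA
    · push Not at hA
      have e2 : wS s n = 0 := by
        unfold wS
        rw [if_pos hA.1, lamP_nat, if_neg hA.2]
      rw [e2, zero_mul, zero_mul]
    · push Not at hA
      obtain ⟨i, hi⟩ := hA
      rw [prod_eq_zero (mem_univ i) (if_neg hi), mul_zero, zero_mul]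

/-- from the weighted sums to the number of prime values -/
lemma unweight (s : Bool) (c h : Fin k → ℕ) (hc : ∀ i, 1 ≤ c i) (X : ℕ) (CF T : ℝ)
    (hT : ∀ u, u ≤ X → |∑ n ∈ Icc 1 u, wS s n * ∏ i, lamP ((h i : ℤ) + 1 * (c i * n)) - CF * u| ≤ T) (y : ℕ)
    (hy : y ≤ X) : |(cntS s c h y : ℝ) - CF * ∑ n ∈ Icc 2 y, fw s c h n| ≤ 1 + 2 * T * 2 ^ (k + 1) := by
  classical
  have hT0 : 0 ≤ T := (abs_nonneg _).trans (hT 0 (Nat.zero_le _))
  set θ : ℕ → ℝ := fun n => wS s n * ∏ i, lamP ((h i : ℤ) + 1 * (c i * n)) with hθ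
  have h1 := abel_le (fw s c h) (fun n => θ n - CF) (2 * T) y
    (fun n hn => ⟨fw_nonneg s c h hc hn, fw_anti s c h hc hn⟩) (by
      intro u hu
      rcases Nat.eq_zero_or_pos u with h0 | h0
      · rw [h0, Icc_eq_empty (by omega), sum_empty, abs_zero]
        linarith
      · have e1 : ∑ n ∈ Icc 1 u, θ n - CF * u = (θ 1 - CF) + ∑ n ∈ Icc 2 u, (θ n - CF) := by
          have e2 : Icc 1 u = insert 1 (Icc 2 u) := by
            ext n
            rw [mem_insert, mem_Icc, mem_Icc]
            omega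
          rw [e2, sum_insert (by rw [mem_Icc]; omega), sum_sub_distrib, sum_const, Nat.card_Icc, nsmul_eq_mul]
          have e3 : ((u + 1 - 2 : ℕ) : ℝ) = (u : ℝ) - 1 := by
            rw [Nat.cast_sub (by omega)]
            push_cast
            ring
          rw [e3]
          ring
        have h2 := hT u (hu.trans hy)
        have h3 := hT 1 (by omega)
        simp only [Icc_self, sum_singleton, Nat.cast_one, mul_one] at h3
        rw [e1] at h2
        have h3' : |θ 1 - CF| ≤ T := by
          refine le_trans (le_of_eq ?_) h3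
          simp only [hθ, Nat.cast_one, mul_one]
        have h4 := abs_sub_abs_le_abs_sub (∑ n ∈ Icc 2 u, (θ n - CF)) (-(θ 1 - CF))
        rw [abs_neg, sub_neg_eq_add, add_comm (∑ n ∈ Icc 2 u, (θ n - CF))] at h4
        linarith)
  have e1 : ∑ n ∈ Icc 2 y, (θ n - CF) * fw s c h n =
      (((Icc 2 y).filter (fun n => AllP s c h n)).card : ℝ) - CF * ∑ n ∈ Icc 2 y, fw s c h n := by
    rw [card_eq_sum_ones, Nat.cast_sum, sum_filter, mul_sum, ← sum_sub_distrib]
    apply sum_congr rfl
    intro n hn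
    rw [mem_Icc] at hn
    rw [sub_mul, hθ]
    simp only
    rw [theta_fw s c h hc hn.1]
    push_cast
    ring
  rw [e1] at h1
  have h2 : |(cntS s c h y : ℝ) - (((Icc 2 y).filter (fun n => AllP s c h n)).card : ℝ)| ≤ 1 := by
    have h3 : ((Icc 2 y).filter (fun n => AllP s c h n)).card ≤ cntS s c h y := by
      unfold cntS
      exact card_le_card (filter_subset_filter _ (Icc_subset_Icc_left (by norm_num)))
    have h4 : cntS s c h y ≤ ((Icc 2 y).filter (fun n => AllP s c h n)).card + 1 := by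
      unfold cntS
      have h5 : (Icc 1 y).filter (fun n => AllP s c h n) ⊆ insert 1 ((Icc 2 y).filter (fun n => AllP s c h n)) := by
        intro n hn
        rw [mem_filter, mem_Icc] at hn
        rw [mem_insert, mem_filter, mem_Icc]
        by_cases h6 : n = 1
        · left; exact h6
        · right; exact ⟨⟨by omega, hn.1.2⟩, hn.2⟩
      exact (card_le_card h5).trans (card_insert_le _ _)
    rw [abs_le]
    constructor
    · have : (((Icc 2 y).filter (fun n => AllP s c h n)).card : ℝ) ≤ cntS s c h y := by exact_mod_cast h3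
      linarith
    · have : (cntS s c h y : ℝ) ≤ (((Icc 2 y).filter (fun n => AllP s c h n)).card : ℝ) + 1 := by exact_mod_cast h4
      linarith
  have h3 := fw_two s c h hc
  have h4 : 2 * T * fw s c h 2 ≤ 2 * T * 2 ^ (k + 1) := mul_le_mul_of_nonneg_left h3 (by linarith)
  have h5 := abs_add_le ((cntS s c h y : ℝ) - (((Icc 2 y).filter (fun n => AllP s c h n)).card : ℝ))
    ((((Icc 2 y).filter (fun n => AllP s c h n)).card : ℝ) - CF * ∑ n ∈ Icc 2 y, fw s c h n)
  rw [sub_add_sub_cancel] at h5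
  linarith

/-- without fixed prime divisors the number of roots is small -/
lemma om_le (s : Bool) (c h : Fin k → ℕ) (p : ℕ) (hp : p.Prime) (hlt : om s c h p < p) :
    om s c h p ≤ k + s.toNat := by
  classical
  have : Fact p.Prime := ⟨hp⟩
  have hsub : (range p).filter (fun r : ℕ => (s = true ∧ p ∣ r) ∨ ∃ i, p ∣ c i * r + h i) ⊆
      (if s = true then {0} else ∅) ∪ univ.image (fun i => rt p (c i) (h i)) := by
    intro r hr
    rw [mem_filter, mem_range] at hr
    rw [mem_union, mem_image]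
    rcases hr.2 with ⟨hs, hd⟩ | ⟨i, hi⟩
    · left
      rw [if_pos hs, mem_singleton]
      exact Nat.eq_zero_of_dvd_of_lt hd hr.1
    · right
      have hci : ¬ p ∣ c i := by
        intro hd
        have hh : p ∣ h i := (Nat.dvd_add_right (hd.mul_right r)).1 hi
        apply absurd hlt
        rw [not_lt]
        unfold om
        rw [filter_true_of_mem, card_range]
        intro r' _
        exact Or.inr ⟨i, (hd.mul_right r').add hh⟩
      exact ⟨i, mem_univ _, ((rt_iff hci hr.1).1 hi).symm⟩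
  unfold om
  refine (card_le_card hsub).trans ((card_union_le _ _).trans ?_)
  have h1 : (univ.image (fun i => rt p (c i) (h i))).card ≤ k := by
    refine card_image_le.trans ?_
    rw [card_univ, Fintype.card_fin]
  have h2 : (if s = true then ({0} : Finset ℕ) else ∅).card ≤ s.toNat := by
    cases s <;> simp
  omega

/-- the lower bound for the constants -/
lemma PR_low (s : Bool) (c h : Fin k → ℕ) (hks : 1 ≤ k + s.toNat) (hlt : ∀ p : ℕ, p.Prime → om s c h p < p)
    (z : ℕ) : (1 / (3 * (k + s.toNat : ℕ) : ℝ)) ^ (3 * (k + s.toNat)) * Real.exp (-(2 * ((k + s.toNat : ℕ) : ℝ) ^ 2)) ≤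
      PR (om s c h) (k + s.toNat) z := by
  unfold PR Fv
  exact local_low (k + s.toNat) hks (om s c h) z (fun p hp => om_le s c h p (mem_pz.1 hp).2 (hlt p (mem_pz.1 hp).2))
    (fun p hp => hlt p (mem_pz.1 hp).2)

/-- few degenerate tuples -/
lemma deg_one (X : ℕ) (r q c : Fin k → ℕ) (hq : ∀ i, 1 ≤ q i) (hc : ∀ i, 1 ≤ c i) (i j : Fin k) (hij : i ≠ j) :
    ((X / q i + 1 : ℕ) : ℝ) * (((box X q).filter (fun m => c i * pt r q m j = c j * pt r q m i)).card : ℝ) ≤
      ∏ i, ((X / q i + 1 : ℕ) : ℝ) := by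
  classical
  have h1 := avg_coord (fun i => Icc 1 (X / q i + 1)) i
    (fun m => if c i * pt r q m j = c j * pt r q m i then (1 : ℝ) else 0)
  have h2 : ((Icc 1 (X / q i + 1)).card : ℝ) = ((X / q i + 1 : ℕ) : ℝ) := by
    rw [Nat.card_Icc, Nat.add_sub_cancel]
  rw [h2] at h1
  have h3 : ∑ m ∈ box X q, (if c i * pt r q m j = c j * pt r q m i then (1 : ℝ) else 0) =
      (((box X q).filter (fun m => c i * pt r q m j = c j * pt r q m i)).card : ℝ) := by
    rw [← sum_filter, sum_const, nsmul_eq_mul, mul_one]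
  have h3' : ∑ m ∈ Fintype.piFinset (fun i => Icc 1 (X / q i + 1)),
      (if c i * pt r q m j = c j * pt r q m i then (1 : ℝ) else 0) =
      (((box X q).filter (fun m => c i * pt r q m j = c j * pt r q m i)).card : ℝ) := h3
  rw [h3'] at h1
  rw [← h1]
  have h4 : ∀ m ∈ Fintype.piFinset (fun i => Icc 1 (X / q i + 1)), ∑ v ∈ Icc 1 (X / q i + 1),
      (if c i * pt r q (Function.update m i v) j = c j * pt r q (Function.update m i v) i then (1 : ℝ) else 0) ≤ 1 := by
    intro m _
    rw [← sum_filter, sum_const, nsmul_eq_mul, mul_one]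
    have h5 : ((Icc 1 (X / q i + 1)).filter (fun v =>
        c i * pt r q (Function.update m i v) j = c j * pt r q (Function.update m i v) i)).card ≤ 1 := by
      rw [card_le_one]
      intro v hv v' hv'
      rw [mem_filter, mem_Icc] at hv hv'
      unfold pt at hv hv'
      rw [Function.update_of_ne (Ne.symm hij), Function.update_self] at hv hv'
      have h6 : c j * al (r i) (q i) v = c j * al (r i) (q i) v' := by rw [← hv.2, ← hv'.2]
      have h7 := Nat.eq_of_mul_eq_mul_left (by have := hc j; omega : 0 < c j) h6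
      unfold al at h7
      have h8 : q i * (v - 1) = q i * (v' - 1) := by omega
      have h9 := Nat.eq_of_mul_eq_mul_left (by have := hq i; omega : 0 < q i) h8
      omega
    exact_mod_cast h5
  refine (sum_le_sum h4).trans (le_of_eq ?_)
  rw [sum_const, nsmul_eq_mul, mul_one, Fintype.card_piFinset]
  push_cast
  apply prod_congr rfl
  intro l _
  rw [Nat.card_Icc, Nat.add_sub_cancel]
  push_cast
  ring

end Pool.Agent.T9h57.TP
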