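import Pool.Agent.T9h57.TP.Cls

set_option autoImplicit false

/-! Systems of linear forms with constant terms in the residue classes of regular moduli: the weighted formula for all
initial segments at the same time. -/

namespace Pool.Agent.T9h57.TP

open Finset Polynomial
open Pool.Agent.T9h57.GP (RegL)
open Pool.Agent.H373R2.T7
open Pool.Agent.Y614.GJ.Core (ev_log)

/-- the linear polynomials `c_i n` -/
noncomputable def lf {k : ℕ} (c : Fin k → ℕ) (i : Fin k) : ℤ[X] := C ((c i : ℕ) : ℤ) * X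

lemma lf_eval {k : ℕ} (c : Fin k → ℕ) (i : Fin k) (n : ℕ) : (lf c i).eval (n : ℤ) = c i * n := by
  unfold lf
  rw [eval_mul, eval_C, eval_X]

lemma lf_deg {k : ℕ} (c : Fin k → ℕ) (hc : ∀ i, 1 ≤ c i) (i : Fin k) : 1 ≤ (lf c i).natDegree := by
  unfold lf
  rw [natDegree_C_mul_X]
  have := hc i
  exact_mod_cast (by omega : c i ≠ 0)

lemma lf_lc {k : ℕ} (c : Fin k → ℕ) (hc : ∀ i, 1 ≤ c i) (i : Fin k) : 0 < (lf c i).leadingCoeff := by
  unfold lf
  rw [leadingCoeff_C_mul_X]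
  have := hc i
  exact_mod_cast (by omega : 0 < c i)

lemma vl_lf {k : ℕ} (c : Fin k → ℕ) (σ : Fin k → ℤ) (a : Fin k → ℕ) (i : Fin k) (n : ℕ) :
    vl (lf c) σ a i n = (a i : ℤ) + σ i * (c i * n) := by
  unfold vl
  rw [lf_eval]

/-- the local density of the system -/
noncomputable def SS {k : ℕ} (dn : (ℕ → ℕ → Prop) → ℕ → ℝ) (c : Fin k → ℕ) (σ : Fin k → ℤ) (z : ℕ)
    (a : Fin k → ℕ) : ℝ := ((Vz z)⁻¹) ^ k * dn (sysQ (lf c) σ a) z

lemma abs_prod_le {k : ℕ} (f : Fin k → ℝ) (B : ℝ) (hB : 0 ≤ B) (h : ∀ i, 0 ≤ f i ∧ f i ≤ B) :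
    0 ≤ ∏ i, f i ∧ ∏ i, f i ≤ B ^ k := by
  refine ⟨prod_nonneg fun i _ => (h i).1, ?_⟩
  calc ∏ i, f i ≤ ∏ _i : Fin k, B := prod_le_prod (fun i _ => (h i).1) (fun i _ => (h i).2)
    _ = B ^ k := by rw [prod_const, card_univ, Fintype.card_fin]

/-- a short segment -/
lemma seg_le (w P : ℕ → ℝ) (y' y g : ℕ) (W B : ℝ) (hy : y' ≤ y) (hg : y ≤ y' + g) (hW : 0 ≤ W) (hB : 0 ≤ B)
    (hw : ∀ n ∈ Icc 1 y, 0 ≤ w n ∧ w n ≤ W) (hP : ∀ n ∈ Icc 1 y, 0 ≤ P n ∧ P n ≤ B) :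
    |∑ n ∈ Icc 1 y, w n * P n - ∑ n ∈ Icc 1 y', w n * P n| ≤ g * (W * B) := by
  have hsub : Icc 1 y' ⊆ Icc 1 y := Icc_subset_Icc_right hy
  rw [← sum_sdiff hsub, add_sub_cancel_right]
  have hb : ∀ n ∈ Icc 1 y \ Icc 1 y', |w n * P n| ≤ W * B := by
    intro n hn
    have hn' := (mem_sdiff.1 hn).1
    have h1 := hw n hn'
    have h2 := hP n hn'
    rw [abs_of_nonneg (mul_nonneg h1.1 h2.1)]
    exact mul_le_mul h1.2 h2.2 h2.1 hW
  refine (abs_sum_le_sum_abs _ _).trans ((sum_le_sum hb).trans ?_)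
  rw [sum_const, nsmul_eq_mul]
  apply mul_le_mul_of_nonneg_right _ (by positivity)
  have : (Icc 1 y \ Icc 1 y').card ≤ g := by
    rw [card_sdiff_of_subset hsub, Nat.card_Icc, Nat.card_Icc]
    omega
  exact_mod_cast this

lemma pos_seg {k : ℕ} (F : Fin k → ℤ[X]) (σ : Fin k → ℤ) (a : Fin k → ℕ) (y' y g : ℕ) (hy : y' ≤ y)
    (hg : y ≤ y' + g) : |(posCount F σ a y : ℝ) - posCount F σ a y'| ≤ g := by
  classical
  unfold posCount
  have hsub : (Icc 1 y').filter (fun n => ∀ i, 1 ≤ vl F σ a i n) ⊆ (Icc 1 y).filter (fun n => ∀ i, 1 ≤ vl F σ a i n) :=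
    filter_subset_filter _ (Icc_subset_Icc_right hy)
  have h1 := card_le_card hsub
  have h2 : ((Icc 1 y).filter (fun n => ∀ i, 1 ≤ vl F σ a i n)).card ≤
      ((Icc 1 y').filter (fun n => ∀ i, 1 ≤ vl F σ a i n)).card + g := by
    have h3 : (Icc 1 y).filter (fun n => ∀ i, 1 ≤ vl F σ a i n) ⊆
        (Icc 1 y').filter (fun n => ∀ i, 1 ≤ vl F σ a i n) ∪ Ioc y' y := by
      intro n hn
      rw [mem_filter, mem_Icc] at hn
      rw [mem_union, mem_filter, mem_Icc, mem_Ioc]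
      by_cases h : n ≤ y'
      · left; exact ⟨⟨hn.1.1, h⟩, hn.2⟩
      · right; omega
    refine (card_le_card h3).trans ((card_union_le _ _).trans ?_)
    rw [Nat.card_Ioc]
    omega
  rw [abs_of_nonneg (sub_nonneg.2 (by exact_mod_cast h1)), sub_le_iff_le_add']
  exact_mod_cast h2

set_option maxHeartbeats 1000000 in
/-- the weighted formula for all initial segments -/
theorem cls_main {k : ℕ} (c : Fin k → ℕ) (hc : ∀ i, 1 ≤ c i) (σ : Fin k → ℤ) (hσ : ∀ i, σ i = 1 ∨ σ i = -1)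
    (w : ℕ → ℝ) (dn : (ℕ → ℕ → Prop) → ℕ → ℝ) (hw : WD w dn (sysC (lf c))) (M : ℕ) (hM : ∀ i, c i ≤ M) (U : ℕ)
    (ρ : ℝ) (hρ : 0 < ρ) (hρ1 : ρ ≤ 1 / 3) :
    ∃ C₀ U₂ : ℕ, ∀ K : ℕ, ∃ B : ℕ, ∀ E : ℕ, ∃ X₀ : ℕ, ∀ X : ℕ, X₀ ≤ X → ∀ z : ℕ,
    Real.log X ^ B ≤ z → (z : ℝ) ≤ Real.log X ^ E → ∀ r q : Fin k → ℕ, Reg M X C₀ K U₂ ρ r q →
      ∃ S ⊆ box X q, (S.card : ℝ) ≤ (∏ i, ((X / q i + 1 : ℕ) : ℝ)) / Real.log X ^ U ∧
        ∀ m ∈ box X q, m ∉ S → (∀ i, 1 ≤ pt r q m i) → ∀ y : ℕ, y ≤ X →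
          |∑ n ∈ Icc 1 y, w n * ∏ i, lamP ((pt r q m i : ℤ) + σ i * (c i * n)) -
            SS dn c σ z (pt r q m) * posCount (lf c) σ (pt r q m) y| ≤ X / Real.log X ^ U := by
  classical
  obtain ⟨Gp, hGp⟩ : ∃ Gp, Gp = U + k + 4 := ⟨_, rfl⟩
  obtain ⟨C₀, U₂, h0⟩ := cls_diff k M (2 * U + Gp + 3) ρ hρ hρ1
  refine ⟨C₀, U₂, fun K => ?_⟩
  obtain ⟨B, hB⟩ := h0 K
  refine ⟨B, fun E => ?_⟩
  obtain ⟨N₁, h1⟩ := hB E
  obtain ⟨N₂, h2⟩ := sys_model (lf c) (lf_deg c hc) (lf_lc c hc) σ hσ w dn hw (E + 1) (U + 2)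
  obtain ⟨M2, hM2⟩ : ∃ M2 : ℕ, M2 = M + 2 := ⟨_, rfl⟩
  obtain ⟨X₃, h3⟩ := Filter.eventually_atTop.1 (ev_log 1 (s := 1) (by norm_num)
    (2 * 2 ^ E + 2 ^ (U + 2) + M2 + 8 * (2 ^ k + 2 * (k * 2 ^ k) * 4 * M2 + 4) + 100))
  obtain ⟨X₄, h4⟩ := Vz_inv_small E
  obtain ⟨X₅, h5⟩ := ev_log' (Gp + k + U + 6) 1
  refine ⟨N₁ + N₂ ^ 2 + X₃ + X₄ + X₅ + 3, fun X hX z hz1 hz2 r q hR => ?_⟩
  have hX1 : 1 ≤ X := by omega
  have hX0 : (0 : ℝ) < X := by exact_mod_cast hX1
  have hX1r : (1 : ℝ) ≤ X := by exact_mod_cast hX1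
  obtain ⟨hLb, -⟩ := h3 X (by omega)
  have hM2r : (2 : ℝ) ≤ M2 := by rw [hM2]; push_cast; linarith [Nat.cast_nonneg (α := ℝ) M]
  have hp1 : (0 : ℝ) < 2 ^ E := by positivity
  have hp2 : (0 : ℝ) < 2 ^ (U + 2) := by positivity
  have hp3 : (0 : ℝ) ≤ 8 * (2 ^ k + 2 * (k * 2 ^ k) * 4 * M2 + 4) := by positivity
  have hL1 : 1 ≤ Real.log X := by linarith
  have hz : 1 ≤ z := by
    have : (1 : ℝ) ≤ z := (one_le_pow₀ hL1).trans hz1
    exact_mod_cast this
  have hV := h4 X (by omega) z hz hz2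
  have c1 := h1 X (by omega) z hz1 hz2 r q hR c (fun i => ⟨hc i, hM i⟩) σ hσ
  have c5 := h5 X (by omega)
  obtain ⟨L, hLd⟩ : ∃ L, L = Real.log (X : ℝ) := ⟨_, rfl⟩
  rw [← hLd] at hLb hL1 hV c1 c5 hz2 ⊢
  rw [one_mul] at c5
  have hL0 : 0 < L := by linarith
  have hL100 : 100 ≤ L := by linarith
  have hV0 : 0 ≤ (Vz z)⁻¹ := (inv_pos.2 (Vz_pos z)).le
  have hss : √(X : ℝ) * √(X : ℝ) = X := Real.mul_self_sqrt hX0.le
  have hs0 : 0 < √(X : ℝ) := Real.sqrt_pos.2 hX0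
  have hqX : ∀ i, q i ≤ X := fun i => q_le hX1 hρ (hR i).2.1
  -- weights
  have hwL : ∀ n ∈ Icc 1 X, 0 ≤ w n ∧ w n ≤ L := by
    intro n hn
    rw [mem_Icc] at hn
    refine ⟨hw.nn n, (hw.le n hn.1).trans (max_le hL1 ?_)⟩
    rw [hLd]
    apply Real.log_le_log (by exact_mod_cast hn.1)
    exact_mod_cast hn.2
  -- sizes of the values
  obtain ⟨N, hN⟩ : ∃ N, N = M2 * X := ⟨_, rfl⟩
  have hNr : (N : ℝ) = M2 * X := by rw [hN]; push_cast; ring
  have hN1 : 1 ≤ N := by rw [hN, hM2]; nlinarith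
  have hlogN : Real.log (N : ℝ) ≤ 2 * L := by
    rw [hNr, Real.log_mul (by positivity) hX0.ne', ← hLd]
    have : Real.log (M2 : ℝ) ≤ M2 := (Real.log_le_sub_one_of_pos (by positivity)).trans (by linarith)
    linarith
  have hup : ∀ m ∈ box X q, ∀ n ∈ Icc 1 X, ∀ i, (pt r q m i : ℤ) + σ i * (c i * n) ≤ N := by
    intro m hm n hn i
    rw [mem_Icc] at hn
    have h6 : al (r i) (q i) (m i) ≤ 2 * X := al_le (hqX i) (hR i).2.2.2 (Fintype.mem_piFinset.1 hm i)
    have h7 : c i * n ≤ M * X := Nat.mul_le_mul (hM i) hn.2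
    have h8 : ((c i * n : ℕ) : ℤ) ≤ ((M * X : ℕ) : ℤ) := by exact_mod_cast h7
    have h9 : (0 : ℤ) ≤ ((c i * n : ℕ) : ℤ) := Int.natCast_nonneg _
    have h10 : ((al (r i) (q i) (m i) : ℕ) : ℤ) ≤ ((2 * X : ℕ) : ℤ) := by exact_mod_cast h6
    have h11 : ((N : ℕ) : ℤ) = ((M * X : ℕ) : ℤ) + ((2 * X : ℕ) : ℤ) := by
      rw [hN, hM2]; push_cast; ring
    unfold pt
    push_cast at h8 h9 h10 h11 ⊢
    rcases hσ i with h | h
    · rw [h]; linarith
    · rw [h]; linarith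
  have hI : ∀ m ∈ box X q, ∀ n ∈ Icc 1 X, ∀ i, 0 ≤ lamI ((pt r q m i : ℤ) + σ i * (c i * n)) ∧
      lamI ((pt r q m i : ℤ) + σ i * (c i * n)) ≤ 2 * L := by
    intro m hm n hn i
    refine ⟨lamI_nonneg _, (lamI_le _ (N : ℝ) (by exact_mod_cast hN1) ?_).trans hlogN⟩
    exact_mod_cast hup m hm n hn i
  have hP : ∀ m ∈ box X q, ∀ n ∈ Icc 1 X, 0 ≤ ∏ i, lamP ((pt r q m i : ℤ) + σ i * (c i * n)) ∧
      ∏ i, lamP ((pt r q m i : ℤ) + σ i * (c i * n)) ≤ (2 * L) ^ k := by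
    intro m hm n hn
    apply abs_prod_le _ _ (by positivity)
    intro i
    exact ⟨lamP_nonneg _, (lamP_le _).trans (hI m hm n hn i).2⟩
  have hZ : ∀ (m : Fin k → ℕ) (n : ℕ), 0 ≤ ∏ i, lamzI z ((pt r q m i : ℤ) + σ i * (c i * n)) ∧
      ∏ i, lamzI z ((pt r q m i : ℤ) + σ i * (c i * n)) ≤ L ^ k := by
    intro m n
    apply abs_prod_le _ _ hL0.le
    intro i
    exact ⟨lamzI_nonneg _ _, (lamzI_le z _).trans hV⟩
  -- the grid
  have hLG : 1 ≤ L ^ Gp := one_le_pow₀ hL1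
  have hLGX : L ^ Gp ≤ X := by
    have h6 : L ^ Gp ≤ L ^ (Gp + k + U + 6) := pow_le_pow_right₀ hL1 (by omega)
    have h7 : √(X : ℝ) ≤ X := by
      rw [Real.sqrt_le_left hX0.le]; nlinarith
    linarith
  obtain ⟨g, hg⟩ : ∃ g, g = ⌈(X : ℝ) / L ^ Gp⌉₊ := ⟨_, rfl⟩
  have hXG1 : 1 ≤ (X : ℝ) / L ^ Gp := by rw [le_div_iff₀ (by positivity)]; linarith
  have hg1 : (X : ℝ) / L ^ Gp ≤ g := by rw [hg]; exact Nat.le_ceil _
  have hg2 : (g : ℝ) ≤ 2 * (X / L ^ Gp) := by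
    have := Nat.ceil_lt_add_one (show 0 ≤ (X : ℝ) / L ^ Gp by positivity)
    rw [← hg] at this
    linarith
  have hg0 : 0 < g := by
    have : (0 : ℝ) < g := by linarith
    exact_mod_cast this
  have hg0r : (0 : ℝ) < g := by exact_mod_cast hg0
  obtain ⟨J, hJ⟩ : ∃ J, J = X / g := ⟨_, rfl⟩
  have hJr : ((J + 1 : ℕ) : ℝ) ≤ 2 * L ^ Gp := by
    have h6 : (J : ℝ) ≤ X / g := by rw [hJ]; exact Nat.cast_div_le
    have h7 : (X : ℝ) / g ≤ L ^ Gp := by
      rw [div_le_iff₀ hg0r]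
      rw [div_le_iff₀ (by positivity)] at hg1
      linarith
    push_cast
    linarith
  -- the exceptional sets
  obtain ⟨PV, hPV⟩ : ∃ PV, PV = ∏ i, ((X / q i + 1 : ℕ) : ℝ) := ⟨_, rfl⟩
  have hPV0 : 0 ≤ PV := by rw [hPV]; exact prod_nonneg fun _ _ => Nat.cast_nonneg _
  rw [← hPV] at c1 ⊢
  set D : ℕ → (Fin k → ℕ) → ℝ := fun j m => |∑ n ∈ Icc 1 X, (if n ≤ g * j then w n else 0) *
    (∏ i, lamI ((pt r q m i : ℤ) + σ i * (c i * n)) - ∏ i, lamzI z ((pt r q m i : ℤ) + σ i * (c i * n)))| with hD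
  obtain ⟨T, hT⟩ : ∃ T, T = (X : ℝ) / L ^ (U + 1) := ⟨_, rfl⟩
  have hT0 : 0 < T := by rw [hT]; positivity
  have hDs : ∀ j, ∑ m ∈ box X q, D j m ≤ X * PV / L ^ (2 * U + Gp + 3) := by
    intro j
    refine c1 _ fun n hn => ?_
    have h6 := hwL n hn
    split_ifs
    · rw [abs_of_nonneg h6.1]; exact h6.2
    · rw [abs_zero]; exact hL0.le
  have hcard : ∀ j, (((box X q).filter (fun m => T < D j m)).card : ℝ) ≤ PV / L ^ (U + Gp + 2) := by
    intro j
    apply markov _ (D j) (fun m _ => abs_nonneg _) T _ hT0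
    refine (hDs j).trans (le_of_eq ?_)
    rw [hT, show 2 * U + Gp + 3 = (U + 1) + (U + Gp + 2) by ring, pow_add]
    field_simp
  refine ⟨(range (J + 1)).biUnion (fun j => (box X q).filter (fun m => T < D j m)), ?_, ?_, ?_⟩
  · rw [biUnion_subset]
    intro j _
    exact filter_subset _ _
  · have h6 : ((((range (J + 1)).biUnion (fun j => (box X q).filter (fun m => T < D j m))).card : ℕ) : ℝ) ≤
        ∑ _j ∈ range (J + 1), PV / L ^ (U + Gp + 2) := by
      have h7 : ((((range (J + 1)).biUnion (fun j => (box X q).filter (fun m => T < D j m))).card : ℕ) : ℝ) ≤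
          ((∑ j ∈ range (J + 1), ((box X q).filter (fun m => T < D j m)).card : ℕ) : ℝ) :=
        Nat.cast_le.2 card_biUnion_le
      refine h7.trans ?_
      rw [Nat.cast_sum]
      exact sum_le_sum fun j _ => hcard j
    refine h6.trans ?_
    rw [sum_const, card_range, nsmul_eq_mul]
    calc ((J + 1 : ℕ) : ℝ) * (PV / L ^ (U + Gp + 2)) ≤ (2 * L ^ Gp) * (PV / L ^ (U + Gp + 2)) :=
          mul_le_mul_of_nonneg_right hJr (by positivity)
      _ = (2 / L ^ 2) * (PV / L ^ U) := by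
          rw [pow_add, pow_add]
          field_simp
      _ ≤ 1 * (PV / L ^ U) := by
          apply mul_le_mul_of_nonneg_right _ (by positivity)
          rw [div_le_one (by positivity)]
          nlinarith
      _ = _ := one_mul _
  · intro m hm hmS hpos y hy
    obtain ⟨a, ha⟩ : ∃ a, a = pt r q m := ⟨_, rfl⟩
    have hIm := hI m hm
    have hPm := hP m hm
    have hZm := hZ m
    have hupm := hup m hm
    have hDm : ∀ j ∈ range (J + 1), D j m ≤ T := by
      intro j hj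
      by_contra hcon
      apply hmS
      rw [mem_biUnion]
      exact ⟨j, hj, mem_filter.2 ⟨hm, not_le.1 hcon⟩⟩
    simp only [hD] at hDm
    rw [← ha] at hpos hIm hPm hZm hupm hDm ⊢
    obtain ⟨j, hj⟩ : ∃ j, j = y / g := ⟨_, rfl⟩
    obtain ⟨y', hy'⟩ : ∃ y', y' = g * j := ⟨_, rfl⟩
    have hy'y : y' ≤ y := by rw [hy', hj]; exact Nat.mul_div_le y g
    have hyg : y ≤ y' + g := by
      have h6 := Nat.div_add_mod y g
      have h7 := Nat.mod_lt y hg0
      rw [hy', hj]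
      omega
    have hjJ : j ∈ range (J + 1) := by
      rw [mem_range, hj, hJ]
      exact Nat.lt_succ_of_le (Nat.div_le_div_right hy)
    have hy'X : y' ≤ X := hy'y.trans hy
    have hIccX : ∀ u ≤ X, Icc 1 u ⊆ Icc 1 X := fun u hu => Icc_subset_Icc_right hu
    -- the density
    obtain ⟨Sz, hSz⟩ : ∃ Sz, Sz = SS dn c σ z a := ⟨_, rfl⟩
    have hSz0 : 0 ≤ Sz := by
      rw [hSz]; unfold SS
      exact mul_nonneg (pow_nonneg hV0 _) (hw.d0 _ _)
    have hSz1 : Sz ≤ L ^ k := by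
      rw [hSz]; unfold SS
      calc ((Vz z)⁻¹) ^ k * dn (sysQ (lf c) σ a) z ≤ L ^ k * 1 :=
            mul_le_mul (pow_le_pow_left₀ hV0 hV _) (hw.d1 _ _) (hw.d0 _ _) (by positivity)
        _ = L ^ k := mul_one _
    rw [← hSz]
    -- E0
    have E0 : |∑ n ∈ Icc 1 y, w n * ∏ i, lamP ((a i : ℤ) + σ i * (c i * n)) -
        ∑ n ∈ Icc 1 y', w n * ∏ i, lamP ((a i : ℤ) + σ i * (c i * n))| ≤ g * (L * (2 * L) ^ k) :=
      seg_le w _ y' y g L ((2 * L) ^ k) hy'y hyg hL0.le (by positivity)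
        (fun n hn => hwL n (hIccX y hy hn)) (fun n hn => hPm n (hIccX y hy hn))
    -- E1
    have E1 : |∑ n ∈ Icc 1 y', w n * ∏ i, lamI ((a i : ℤ) + σ i * (c i * n)) -
        ∑ n ∈ Icc 1 y', w n * ∏ i, lamP ((a i : ℤ) + σ i * (c i * n))| ≤
        L * ((2 * L) ^ k * (k * (2 * √(N : ℝ) * Real.log N))) := by
      rw [← sum_sub_distrib]
      refine (abs_sum_le_sum_abs _ _).trans ?_
      have h6 : ∀ n ∈ Icc 1 y', |w n * ∏ i, lamI ((a i : ℤ) + σ i * (c i * n)) -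
          w n * ∏ i, lamP ((a i : ℤ) + σ i * (c i * n))| ≤
          L * ((2 * L) ^ k * ∑ i, (lamI ((a i : ℤ) + σ i * (c i * n)) - lamP ((a i : ℤ) + σ i * (c i * n)))) := by
        intro n hn
        have hnX := hIccX y' hy'X hn
        obtain ⟨h7, h8⟩ := prod_sub_le univ (fun i => lamI ((a i : ℤ) + σ i * (c i * n)))
          (fun i => lamP ((a i : ℤ) + σ i * (c i * n))) (2 * L) (by linarith)
          (fun i _ => lamP_nonneg _) (fun i _ => lamP_le _) (fun i _ => (hIm n hnX i).2)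
        rw [card_univ, Fintype.card_fin] at h8
        rw [← mul_sub, abs_mul, abs_of_nonneg (hwL n hnX).1, abs_of_nonneg h7]
        exact mul_le_mul (hwL n hnX).2 h8 h7 hL0.le
      refine (sum_le_sum h6).trans ?_
      rw [← mul_sum, ← mul_sum, sum_comm]
      apply mul_le_mul_of_nonneg_left _ hL0.le
      apply mul_le_mul_of_nonneg_left _ (by positivity)
      have h9 : ∀ i ∈ (univ : Finset (Fin k)), ∑ n ∈ Icc 1 y', (lamI ((a i : ℤ) + σ i * (c i * n)) -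
          lamP ((a i : ℤ) + σ i * (c i * n))) ≤ 2 * √(N : ℝ) * Real.log N := by
        intro i _
        apply pp_inj y' N hN1 (fun n => (a i : ℤ) + σ i * (c i * n))
        · intro n hn
          exact hupm n (hIccX y' hy'X hn) i
        · intro n _ n' _ h
          have hci : (0 : ℤ) < c i := by
            have := hc i
            exact_mod_cast (by omega : 0 < c i)
          have h7 : (c i : ℤ) * n = c i * n' := by
            rcases hσ i with h8 | h8
            · rw [h8] at h; linarith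
            · rw [h8] at h; linarith
          have h8 := mul_left_cancel₀ hci.ne' h7
          exact_mod_cast h8
      have h10 := sum_le_sum h9
      rw [sum_const, card_univ, Fintype.card_fin, nsmul_eq_mul] at h10
      exact h10
    -- E2
    have E2 : |∑ n ∈ Icc 1 y', w n * ∏ i, lamI ((a i : ℤ) + σ i * (c i * n)) -
        ∑ n ∈ Icc 1 y', w n * ∏ i, lamzI z ((a i : ℤ) + σ i * (c i * n))| ≤ T := by
      refine le_trans (le_of_eq ?_) (hDm j hjJ)
      congr 1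
      rw [← sum_sub_distrib]
      have h6 : ∀ n ∈ Icc 1 X, (if n ≤ g * j then w n else 0) *
          (∏ i, lamI ((a i : ℤ) + σ i * (c i * n)) - ∏ i, lamzI z ((a i : ℤ) + σ i * (c i * n))) =
          if n ≤ y' then w n * ∏ i, lamI ((a i : ℤ) + σ i * (c i * n)) -
            w n * ∏ i, lamzI z ((a i : ℤ) + σ i * (c i * n)) else 0 := by
        intro n _
        rw [← hy']
        split_ifs
        · ring
        · ring
      rw [sum_congr rfl h6, ← sum_filter]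
      apply sum_congr _ (fun _ _ => rfl)
      ext n
      rw [mem_filter, mem_Icc, mem_Icc]
      omega
    -- E3
    have E3 : |∑ n ∈ Icc 1 y', w n * ∏ i, lamzI z ((a i : ℤ) + σ i * (c i * n)) - Sz * posCount (lf c) σ a y'| ≤
        T + 4 * (X / L ^ (U + 2)) := by
      by_cases hy2 : (y' : ℝ) ≤ 2 * (X / L ^ Gp)
      · have h6 : |∑ n ∈ Icc 1 y', w n * ∏ i, lamzI z ((a i : ℤ) + σ i * (c i * n))| ≤ y' * (L * L ^ k) := by
          have h7 := seg_le w (fun n => ∏ i, lamzI z ((a i : ℤ) + σ i * (c i * n))) 0 y' y' L (L ^ k) (Nat.zero_le _)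
            (by omega) hL0.le (by positivity) (fun n hn => hwL n (hIccX y' hy'X hn)) (fun n _ => hZm n)
          simpa using h7
        have h7 : |Sz * posCount (lf c) σ a y'| ≤ y' * (L * L ^ k) := by
          have h8 : ((posCount (lf c) σ a y' : ℕ) : ℝ) ≤ y' := by
            have : posCount (lf c) σ a y' ≤ y' := by
              unfold posCount
              exact (card_filter_le _ _).trans (by rw [Nat.card_Icc]; omega)
            exact_mod_cast this
          rw [abs_of_nonneg (mul_nonneg hSz0 (Nat.cast_nonneg _)), mul_comm]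
          apply mul_le_mul h8 _ hSz0 (Nat.cast_nonneg _)
          calc Sz ≤ 1 * L ^ k := by rw [one_mul]; exact hSz1
            _ ≤ L * L ^ k := mul_le_mul_of_nonneg_right hL1 (by positivity)
        have h8 : (y' : ℝ) * (L * L ^ k) ≤ 2 * (X / L ^ (U + 2)) := by
          calc (y' : ℝ) * (L * L ^ k) ≤ (2 * (X / L ^ Gp)) * (L * L ^ k) :=
                mul_le_mul_of_nonneg_right hy2 (by positivity)
            _ = (2 * (X / L ^ (U + 2))) * (1 / L) := by
                have e : L ^ Gp = L ^ (U + 2) * L ^ k * L * L := by rw [hGp, show U + k + 4 = U + 2 + k + 1 + 1 by ring]; ring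
                rw [e]
                field_simp
            _ ≤ (2 * (X / L ^ (U + 2))) * 1 := by
                apply mul_le_mul_of_nonneg_left _ (by positivity)
                rw [div_le_one hL0]; exact hL1
            _ = _ := mul_one _
        refine (abs_sub _ _).trans ?_
        linarith
      · rw [not_le] at hy2
        have hsy : √(X : ℝ) ≤ y' := by
          refine le_trans ?_ hy2.le
          rw [mul_div_assoc', le_div_iff₀ (by positivity)]
          have h6 : L ^ Gp ≤ √(X : ℝ) := (pow_le_pow_right₀ hL1 (by omega)).trans c5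
          nlinarith
        have hy0 : (0 : ℝ) < y' := lt_of_lt_of_le hs0 hsy
        have hlog : L / 2 ≤ Real.log y' := by
          have h6 := Real.log_le_log hs0 hsy
          rw [Real.log_sqrt hX0.le, ← hLd] at h6
          exact h6
        have hyN : N₂ ≤ y' := by
          have h6 : (N₂ : ℝ) ≤ √(X : ℝ) := by
            apply Real.le_sqrt_of_sq_le
            exact_mod_cast (by omega : N₂ ^ 2 ≤ X)
          exact_mod_cast h6.trans hsy
        have hzE : (z : ℝ) ≤ Real.log y' ^ (E + 1) := by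
          refine hz2.trans ?_
          have h7 : 2 ^ E ≤ Real.log y' := by linarith
          calc L ^ E ≤ (2 * Real.log y') ^ E := pow_le_pow_left₀ hL0.le (by linarith) _
            _ = 2 ^ E * Real.log y' ^ E := mul_pow _ _ _
            _ ≤ Real.log y' * Real.log y' ^ E := mul_le_mul_of_nonneg_right h7 (pow_nonneg (by linarith) _)
            _ = _ := by ring
        have h6 := h2 y' hyN a hpos z hz hzE
        simp only [vl_lf] at h6
        have h7 : (y' : ℝ) / Real.log y' ^ (U + 2) ≤ T := by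
          calc (y' : ℝ) / Real.log y' ^ (U + 2) ≤ X / (L / 2) ^ (U + 2) := by
                apply div_le_div₀ hX0.le (by exact_mod_cast hy'X) (by positivity)
                exact pow_le_pow_left₀ (by positivity) hlog _
            _ = (2 ^ (U + 2) / L) * T := by
                rw [hT, div_pow, show U + 2 = U + 1 + 1 by ring, pow_succ L (U + 1)]
                field_simp
            _ ≤ 1 * T := by
                apply mul_le_mul_of_nonneg_right _ hT0.le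
                rw [div_le_one hL0]
                linarith
            _ = T := one_mul _
        have h8 : 0 ≤ 4 * (X / L ^ (U + 2)) := by positivity
        rw [hSz]
        unfold SS
        linarith
    -- E4
    have E4 : |Sz * posCount (lf c) σ a y' - Sz * posCount (lf c) σ a y| ≤ g * L ^ k := by
      rw [← mul_sub, abs_mul, abs_of_nonneg hSz0, abs_sub_comm, mul_comm]
      exact mul_le_mul (pos_seg (lf c) σ a y' y g hy'y hyg) hSz1 hSz0 hg0r.le
    -- sizes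
    have g0 : (g : ℝ) * (L * (2 * L) ^ k) ≤ (2 * 2 ^ k) * (X / L ^ (U + 1)) := by
      calc (g : ℝ) * (L * (2 * L) ^ k) ≤ (2 * (X / L ^ Gp)) * (L * (2 * L) ^ k) :=
            mul_le_mul_of_nonneg_right hg2 (by positivity)
        _ = ((2 * 2 ^ k) * (X / L ^ (U + 1))) * (1 / L ^ 2) := by
            have e : L ^ Gp = L ^ (U + 1) * L ^ k * L * L ^ 2 := by rw [hGp]; ring
            rw [e, mul_pow]
            field_simp
        _ ≤ ((2 * 2 ^ k) * (X / L ^ (U + 1))) * 1 := by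
            apply mul_le_mul_of_nonneg_left _ (by positivity)
            rw [div_le_one (by positivity)]
            nlinarith
        _ = _ := mul_one _
    have g4 : (g : ℝ) * L ^ k ≤ (2 * 2 ^ k) * (X / L ^ (U + 1)) := by
      refine le_trans ?_ g0
      apply mul_le_mul_of_nonneg_left _ hg0r.le
      have h6 : L ^ k ≤ (2 * L) ^ k := pow_le_pow_left₀ hL0.le (by linarith) _
      have h7 : 0 ≤ (2 * L) ^ k := by positivity
      nlinarith
    have g1 : L * ((2 * L) ^ k * (k * (2 * √(N : ℝ) * Real.log N))) ≤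
        (k * 2 ^ k * 4 * M2) * (X / L ^ (U + 1)) := by
      have hsN : √(N : ℝ) ≤ M2 * √(X : ℝ) := by
        rw [hNr, Real.sqrt_mul (by positivity)]
        apply mul_le_mul_of_nonneg_right _ hs0.le
        rw [Real.sqrt_le_left (by positivity)]
        nlinarith
      have hlN0 : 0 ≤ Real.log (N : ℝ) := Real.log_natCast_nonneg N
      calc L * ((2 * L) ^ k * (k * (2 * √(N : ℝ) * Real.log N)))
          ≤ L * ((2 * L) ^ k * (k * (2 * (M2 * √(X : ℝ)) * (2 * L)))) := by gcongr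
        _ = (k * 2 ^ k * 4 * M2) * (√(X : ℝ) * L ^ (k + 2)) := by rw [mul_pow]; ring
        _ ≤ (k * 2 ^ k * 4 * M2) * (X / L ^ (U + 1)) := by
            apply mul_le_mul_of_nonneg_left _ (by positivity)
            rw [le_div_iff₀ (by positivity), mul_assoc, ← pow_add]
            have h6 : L ^ (k + 2 + (U + 1)) ≤ √(X : ℝ) := (pow_le_pow_right₀ hL1 (by omega)).trans c5
            calc √(X : ℝ) * L ^ (k + 2 + (U + 1)) ≤ √(X : ℝ) * √(X : ℝ) := mul_le_mul_of_nonneg_left h6 hs0.le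
              _ = X := hss
    have g3 : 4 * (X / L ^ (U + 2)) ≤ 4 * (X / L ^ (U + 1)) := by
      apply mul_le_mul_of_nonneg_left _ (by norm_num)
      apply div_le_div_of_nonneg_left hX0.le (by positivity)
      exact pow_le_pow_right₀ hL1 (by omega)
    have e5 : ∑ n ∈ Icc 1 y, w n * ∏ i, lamP ((a i : ℤ) + σ i * (c i * n)) - Sz * posCount (lf c) σ a y =
        (∑ n ∈ Icc 1 y, w n * ∏ i, lamP ((a i : ℤ) + σ i * (c i * n)) -
          ∑ n ∈ Icc 1 y', w n * ∏ i, lamP ((a i : ℤ) + σ i * (c i * n))) -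
        (∑ n ∈ Icc 1 y', w n * ∏ i, lamI ((a i : ℤ) + σ i * (c i * n)) -
          ∑ n ∈ Icc 1 y', w n * ∏ i, lamP ((a i : ℤ) + σ i * (c i * n))) +
        (∑ n ∈ Icc 1 y', w n * ∏ i, lamI ((a i : ℤ) + σ i * (c i * n)) -
          ∑ n ∈ Icc 1 y', w n * ∏ i, lamzI z ((a i : ℤ) + σ i * (c i * n))) +
        (∑ n ∈ Icc 1 y', w n * ∏ i, lamzI z ((a i : ℤ) + σ i * (c i * n)) - Sz * posCount (lf c) σ a y') +
        (Sz * posCount (lf c) σ a y' - Sz * posCount (lf c) σ a y) := by ring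
    rw [e5]
    have hfin : (2 * 2 ^ k) * (X / L ^ (U + 1)) + (k * 2 ^ k * 4 * M2) * (X / L ^ (U + 1)) + X / L ^ (U + 1) +
        (X / L ^ (U + 1) + 4 * (X / L ^ (U + 1))) + (2 * 2 ^ k) * (X / L ^ (U + 1)) ≤ X / L ^ U := by
      have h6 : X / L ^ U = L * (X / L ^ (U + 1)) := by
        rw [pow_succ]
        field_simp
      rw [h6]
      have h7 : 0 ≤ X / L ^ (U + 1) := by positivity
      have h8 : (2 * 2 ^ k) + (k * 2 ^ k * 4 * M2) + 1 + (1 + 4) + (2 * 2 ^ k) ≤ L := by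
        have h9 : (0 : ℝ) ≤ 2 ^ k := by positivity
        have h10 : (0 : ℝ) ≤ k * 2 ^ k * 4 * M2 := by positivity
        nlinarith
      calc _ = ((2 * 2 ^ k) + (k * 2 ^ k * 4 * M2) + 1 + (1 + 4) + (2 * 2 ^ k)) * (X / L ^ (U + 1)) := by ring
        _ ≤ _ := mul_le_mul_of_nonneg_right h8 h7
    rw [hT] at E2 E3
    have q1 := abs_add_le ((∑ n ∈ Icc 1 y, w n * ∏ i, lamP ((a i : ℤ) + σ i * (c i * n)) -
          ∑ n ∈ Icc 1 y', w n * ∏ i, lamP ((a i : ℤ) + σ i * (c i * n))) -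
        (∑ n ∈ Icc 1 y', w n * ∏ i, lamI ((a i : ℤ) + σ i * (c i * n)) -
          ∑ n ∈ Icc 1 y', w n * ∏ i, lamP ((a i : ℤ) + σ i * (c i * n))) +
        (∑ n ∈ Icc 1 y', w n * ∏ i, lamI ((a i : ℤ) + σ i * (c i * n)) -
          ∑ n ∈ Icc 1 y', w n * ∏ i, lamzI z ((a i : ℤ) + σ i * (c i * n))) +
        (∑ n ∈ Icc 1 y', w n * ∏ i, lamzI z ((a i : ℤ) + σ i * (c i * n)) - Sz * posCount (lf c) σ a y'))
        (Sz * posCount (lf c) σ a y' - Sz * posCount (lf c) σ a y)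
    have q2 := abs_add_le ((∑ n ∈ Icc 1 y, w n * ∏ i, lamP ((a i : ℤ) + σ i * (c i * n)) -
          ∑ n ∈ Icc 1 y', w n * ∏ i, lamP ((a i : ℤ) + σ i * (c i * n))) -
        (∑ n ∈ Icc 1 y', w n * ∏ i, lamI ((a i : ℤ) + σ i * (c i * n)) -
          ∑ n ∈ Icc 1 y', w n * ∏ i, lamP ((a i : ℤ) + σ i * (c i * n))) +
        (∑ n ∈ Icc 1 y', w n * ∏ i, lamI ((a i : ℤ) + σ i * (c i * n)) -
          ∑ n ∈ Icc 1 y', w n * ∏ i, lamzI z ((a i : ℤ) + σ i * (c i * n))))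
        (∑ n ∈ Icc 1 y', w n * ∏ i, lamzI z ((a i : ℤ) + σ i * (c i * n)) - Sz * posCount (lf c) σ a y')
    have q3 := abs_add_le ((∑ n ∈ Icc 1 y, w n * ∏ i, lamP ((a i : ℤ) + σ i * (c i * n)) -
          ∑ n ∈ Icc 1 y', w n * ∏ i, lamP ((a i : ℤ) + σ i * (c i * n))) -
        (∑ n ∈ Icc 1 y', w n * ∏ i, lamI ((a i : ℤ) + σ i * (c i * n)) -
          ∑ n ∈ Icc 1 y', w n * ∏ i, lamP ((a i : ℤ) + σ i * (c i * n))))
        (∑ n ∈ Icc 1 y', w n * ∏ i, lamI ((a i : ℤ) + σ i * (c i * n)) -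
          ∑ n ∈ Icc 1 y', w n * ∏ i, lamzI z ((a i : ℤ) + σ i * (c i * n)))
    have q4 := abs_sub (∑ n ∈ Icc 1 y, w n * ∏ i, lamP ((a i : ℤ) + σ i * (c i * n)) -
          ∑ n ∈ Icc 1 y', w n * ∏ i, lamP ((a i : ℤ) + σ i * (c i * n)))
        (∑ n ∈ Icc 1 y', w n * ∏ i, lamI ((a i : ℤ) + σ i * (c i * n)) -
          ∑ n ∈ Icc 1 y', w n * ∏ i, lamP ((a i : ℤ) + σ i * (c i * n)))
    linarith

end Pool.Agent.T9h57.TP
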