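import Pool.Agent.T9h57.GD.Few
import Pool.Agent.H373R2.T7.Sys4

set_option autoImplicit false

/-! Linear forms with constant terms in the residue classes of regular moduli: one factor. -/

namespace Pool.Agent.T9h57.TP

open Finset
open Pool.Agent.R460.GS
open Pool.Agent.R460.GP (cvd)
open Pool.Agent.T9h57.GP (RegL)
open Pool.Agent.T9h57.GD (ErrDStm errD_all)
open Pool.Agent.H373R2.T7 (lamz Vz pz lamI lamzI)
open Pool.Agent.Y883.T3 (lsh)
open Pool.Agent.Y883.GJ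
open Pool.Agent.Y614.GJ.Core (ev_log)

lemma cvd_form (X N : ℕ) (β : ℕ → ℕ) (hβ : ∀ m ∈ Icc 1 X, β m ∈ Icc 1 N) (G f : ℕ → ℝ) (n : ℤ) :
    cvd (fun b => ((∑ m ∈ (Icc 1 X).filter (fun m => β m = b), G m : ℝ) : ℂ)) (fun k => ((f k : ℝ) : ℂ)) N N n =
      ((∑ m ∈ Icc 1 X, G m * (if 1 ≤ (β m : ℤ) - n ∧ (β m : ℤ) - n ≤ N then f ((β m : ℤ) - n).toNat else 0) : ℝ) : ℂ) := by
  classical
  unfold cvd
  have step1 : ∀ b ∈ Icc 1 N, (∑ k ∈ Icc 1 N, if (b : ℤ) - k = n then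
      ((∑ m ∈ (Icc 1 X).filter (fun m => β m = b), G m : ℝ) : ℂ) * (starRingEnd ℂ) ((f k : ℝ) : ℂ) else 0) =
      ∑ m ∈ (Icc 1 X).filter (fun m => β m = b),
        ((G m * (if 1 ≤ (β m : ℤ) - n ∧ (β m : ℤ) - n ≤ N then f ((β m : ℤ) - n).toNat else 0) : ℝ) : ℂ) := by
    intro b _
    have e1 : (∑ k ∈ Icc 1 N, if (b : ℤ) - k = n then
        ((∑ m ∈ (Icc 1 X).filter (fun m => β m = b), G m : ℝ) : ℂ) * (starRingEnd ℂ) ((f k : ℝ) : ℂ) else 0) =
        ((∑ m ∈ (Icc 1 X).filter (fun m => β m = b), G m : ℝ) : ℂ) *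
        ((if 1 ≤ (b : ℤ) - n ∧ (b : ℤ) - n ≤ N then f ((b : ℤ) - n).toNat else 0 : ℝ) : ℂ) := by
      split_ifs with h
      · rw [sum_eq_single ((b : ℤ) - n).toNat]
        · rw [if_pos (by omega), Complex.conj_ofReal]
        · intro k _ hk
          rw [if_neg (by omega)]
        · intro hk
          exfalso
          apply hk
          rw [mem_Icc]
          omega
      · rw [Complex.ofReal_zero, mul_zero]
        apply sum_eq_zero
        intro k hk
        rw [mem_Icc] at hk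
        rw [if_neg (by omega)]
    rw [e1, ← Complex.ofReal_mul, sum_mul, Complex.ofReal_sum]
    apply sum_congr rfl
    intro m hm
    rw [(mem_filter.1 hm).2]
  rw [sum_congr rfl step1, sum_fiberwise_of_maps_to hβ, Complex.ofReal_sum]

/-- one factor, abstract form -/
lemma hone_core (X N V z r U₀ A q : ℕ) [NeZero q] (hL : 1 ≤ Real.log N) (a : ZMod q)
    (hsum : ∑ n ∈ Icc 1 N, |lamz z n - lsh z r n| ≤ N / Real.log N ^ U₀)
    (hms : ∀ F : ℕ → ℂ, BdAt N F → ∑ n ∈ (Icc (-(N : ℤ)) N).filter (fun n : ℤ => (n : ZMod q) = a),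
        ‖cvd F (FF z r) N N n‖ ^ 2 ≤ (N : ℝ) ^ 3 / (q * Real.log N ^ A))
    (β : ℕ → ℕ) (hβ : ∀ m ∈ Icc 1 X, β m ∈ Icc 1 N) (hβi : ∀ m ∈ Icc 1 X, ∀ m' ∈ Icc 1 X, β m = β m' → m = m')
    (n : ℕ → ℤ) (hn : ∀ v ∈ Icc 1 V, n v ∈ Icc (-(N : ℤ)) N ∧ ((n v : ℤ) : ZMod q) = a)
    (hni : ∀ v ∈ Icc 1 V, ∀ v' ∈ Icc 1 V, n v = n v' → v = v')
    (hk : ∀ v ∈ Icc 1 V, ∀ m ∈ Icc 1 X, (β m : ℤ) - n v ≤ N) (K : ℝ) (hK : 0 < K) (G : ℕ → ℝ)
    (hG : ∀ m ∈ Icc 1 X, |G m| ≤ K) :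
    ∑ v ∈ Icc 1 V, |∑ m ∈ Icc 1 X, G m * (lamI ((β m : ℤ) - n v) - lamzI z ((β m : ℤ) - n v))| ≤
      K * (√(V * ((N : ℝ) ^ 3 / (q * Real.log N ^ A))) + V * (N / Real.log N ^ U₀)) := by
  classical
  set f : ℕ → ℝ := fun k => ArithmeticFunction.vonMangoldt k - lsh z r k with hf
  set G' : ℕ → ℝ := fun m => G m / K with hG'
  set F : ℕ → ℂ := fun b => ((∑ m ∈ (Icc 1 X).filter (fun m => β m = b), G' m : ℝ) : ℂ) with hF
  have hFF : (fun k => ((f k : ℝ) : ℂ)) = FF z r := by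
    funext k
    rfl
  have hG'1 : ∀ m ∈ Icc 1 X, |G' m| ≤ 1 := by
    intro m hm
    rw [hG']
    simp only
    rw [abs_div, abs_of_pos hK, div_le_one hK]
    exact hG m hm
  have hBd : BdAt N F := by
    intro b hb
    have h1 : ‖F b‖ ≤ 1 := by
      rw [hF]
      simp only
      rw [Complex.norm_real, Real.norm_eq_abs]
      refine (abs_sum_le_sum_abs _ _).trans ?_
      have hc : ((Icc 1 X).filter (fun m => β m = b)).card ≤ 1 := by
        rw [card_le_one]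
        intro m hm m' hm'
        rw [mem_filter] at hm hm'
        exact hβi m hm.1 m' hm'.1 (hm.2.trans hm'.2.symm)
      calc ∑ m ∈ (Icc 1 X).filter (fun m => β m = b), |G' m|
          ≤ ∑ _m ∈ (Icc 1 X).filter (fun m => β m = b), (1 : ℝ) :=
            sum_le_sum fun m hm => hG'1 m (mem_filter.1 hm).1
        _ = (((Icc 1 X).filter (fun m => β m = b)).card : ℝ) := by rw [sum_const, nsmul_eq_mul, mul_one]
        _ ≤ 1 := by exact_mod_cast hc
    have h2 : (1 : ℝ) ≤ Real.log N ^ 2 := one_le_pow₀ hL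
    have h3 : (1 : ℝ) ≤ (b.divisors.card : ℝ) := by
      have : 0 < b.divisors.card := card_pos.2 ⟨1, Nat.mem_divisors.2 ⟨one_dvd _, by
        rw [mem_Icc] at hb
        omega⟩⟩
      exact_mod_cast this
    calc ‖F b‖ ≤ 1 * 1 := by rw [mul_one]; exact h1
      _ ≤ _ := mul_le_mul h2 h3 zero_le_one (by positivity)
  have hms' := hms F hBd
  -- pointwise
  have hpt : ∀ v ∈ Icc 1 V, |∑ m ∈ Icc 1 X, G m * (lamI ((β m : ℤ) - n v) - lamzI z ((β m : ℤ) - n v))| ≤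
      K * (‖cvd F (FF z r) N N (n v)‖ + N / Real.log N ^ U₀) := by
    intro v hv
    have e1 := cvd_form X N β hβ G' f (n v)
    rw [hFF] at e1
    have e2 : ‖cvd F (FF z r) N N (n v)‖ = |∑ m ∈ Icc 1 X, G' m *
        (if 1 ≤ (β m : ℤ) - n v ∧ (β m : ℤ) - n v ≤ N then f ((β m : ℤ) - n v).toNat else 0)| := by
      rw [hF, e1, Complex.norm_real, Real.norm_eq_abs]
    rw [e2]
    have e3 : ∑ m ∈ Icc 1 X, G m * (lamI ((β m : ℤ) - n v) - lamzI z ((β m : ℤ) - n v)) =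
        K * (∑ m ∈ Icc 1 X, G' m *
          (if 1 ≤ (β m : ℤ) - n v ∧ (β m : ℤ) - n v ≤ N then f ((β m : ℤ) - n v).toNat else 0) -
          ∑ m ∈ Icc 1 X, G' m * (if 1 ≤ (β m : ℤ) - n v then
            lamz z ((β m : ℤ) - n v).toNat - lsh z r ((β m : ℤ) - n v).toNat else 0)) := by
      rw [← sum_sub_distrib, mul_sum]
      apply sum_congr rfl
      intro m hm
      have h1 := hk v hv m hm
      rw [hG']
      simp only
      unfold lamI lamzI
      by_cases h2 : 1 ≤ (β m : ℤ) - n v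
      · rw [if_pos h2, if_pos h2, if_pos ⟨h2, h1⟩, if_pos h2, hf]
        field_simp
        ring
      · rw [if_neg h2, if_neg h2, if_neg (fun h => h2 h.1), if_neg h2]
        ring
    rw [e3, abs_mul, abs_of_pos hK]
    apply mul_le_mul_of_nonneg_left _ hK.le
    refine (abs_sub _ _).trans (add_le_add le_rfl ?_)
    refine (abs_sum_le_sum_abs _ _).trans (le_trans ?_ hsum)
    have h4 : ∀ m ∈ Icc 1 X, |G' m * (if 1 ≤ (β m : ℤ) - n v then
        lamz z ((β m : ℤ) - n v).toNat - lsh z r ((β m : ℤ) - n v).toNat else 0)| ≤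
        if 1 ≤ (β m : ℤ) - n v then |lamz z ((β m : ℤ) - n v).toNat - lsh z r ((β m : ℤ) - n v).toNat| else 0 := by
      intro m hm
      rw [abs_mul]
      split_ifs with h5
      · calc |G' m| * |lamz z ((β m : ℤ) - n v).toNat - lsh z r ((β m : ℤ) - n v).toNat|
            ≤ 1 * |lamz z ((β m : ℤ) - n v).toNat - lsh z r ((β m : ℤ) - n v).toNat| :=
              mul_le_mul_of_nonneg_right (hG'1 m hm) (abs_nonneg _)
          _ = _ := one_mul _
      · rw [abs_zero, mul_zero]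
    refine (sum_le_sum h4).trans ?_
    rw [← sum_filter]
    have h5 : ∑ m ∈ (Icc 1 X).filter (fun m => 1 ≤ (β m : ℤ) - n v),
        |lamz z ((β m : ℤ) - n v).toNat - lsh z r ((β m : ℤ) - n v).toNat| =
        ∑ k ∈ ((Icc 1 X).filter (fun m => 1 ≤ (β m : ℤ) - n v)).image (fun m => ((β m : ℤ) - n v).toNat),
          |lamz z k - lsh z r k| := by
      rw [sum_image]
      intro m hm m' hm' hmm
      rw [mem_coe, mem_filter] at hm hm'
      simp only at hmm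
      exact hβi m hm.1 m' hm'.1 (by omega)
    rw [h5]
    apply sum_le_sum_of_subset_of_nonneg
    · intro k hkk
      rw [mem_image] at hkk
      obtain ⟨m, hm, rfl⟩ := hkk
      rw [mem_filter] at hm
      have h6 := hk v hv m hm.1
      rw [mem_Icc]
      omega
    · intro _ _ _
      exact abs_nonneg _
  refine (sum_le_sum hpt).trans ?_
  rw [← mul_sum]
  apply mul_le_mul_of_nonneg_left _ hK.le
  rw [sum_add_distrib, sum_const, Nat.card_Icc, Nat.add_sub_cancel, nsmul_eq_mul]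
  apply add_le_add _ le_rfl
  -- Cauchy
  have h7 : ∑ v ∈ Icc 1 V, ‖cvd F (FF z r) N N (n v)‖ ^ 2 ≤ (N : ℝ) ^ 3 / (q * Real.log N ^ A) := by
    refine le_trans ?_ hms'
    have h8 : ∑ v ∈ Icc 1 V, ‖cvd F (FF z r) N N (n v)‖ ^ 2 = ∑ w ∈ (Icc 1 V).image n, ‖cvd F (FF z r) N N w‖ ^ 2 := by
      rw [sum_image]
      intro v hv v' hv' hvv
      exact hni v (mem_coe.1 hv) v' (mem_coe.1 hv') hvv
    rw [h8]
    apply sum_le_sum_of_subset_of_nonneg
    · intro w hw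
      rw [mem_image] at hw
      obtain ⟨v, hv, rfl⟩ := hw
      rw [mem_filter]
      exact hn v hv
    · intro _ _ _
      positivity
  apply Real.le_sqrt_of_sq_le
  have h9 := sq_sum_le_card_mul_sum_sq (s := Icc 1 V) (f := fun v => ‖cvd F (FF z r) N N (n v)‖)
  rw [Nat.card_Icc, Nat.add_sub_cancel] at h9
  exact h9.trans (mul_le_mul_of_nonneg_left h7 (Nat.cast_nonneg _))

end Pool.Agent.T9h57.TP
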