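import Pool.Agent.T9h57.TP.Hone

set_option autoImplicit false

/-! Linear forms with constant terms in the residue classes of regular moduli: one factor, for the forms
`a ± c n`. -/

namespace Pool.Agent.T9h57.TP

open Finset
open Pool.Agent.R460.GS
open Pool.Agent.R460.GP (cvd)
open Pool.Agent.T9h57.GP (RegL)
open Pool.Agent.T9h57.GD (ErrDStm errD_all)
open Pool.Agent.H373R2.T7 (lamz Vz pz lamI lamzI)
open Pool.Agent.Y883.T3 (lsh)
open Pool.Agent.Y883.GJ
open Pool.Agent.Y614.GJ.Core (ev_log)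

/-- the members of the residue class `r` modulo `q` -/
def al (r q v : ℕ) : ℕ := r + q * (v - 1)

theorem hone_lin (M A : ℕ) (ρ : ℝ) (hρ : 0 < ρ) (hρ1 : ρ ≤ 1 / 3) : ∃ C₀ U₂ : ℕ, ∀ K : ℕ, ∃ B : ℕ, ∀ E : ℕ,
    ∃ X₀ : ℕ, ∀ X : ℕ, X₀ ≤ X → ∀ z : ℕ, Real.log X ^ B ≤ z → (z : ℝ) ≤ Real.log X ^ E →
    ∀ q : ℕ, 1 ≤ q → (q : ℝ) ≤ (X : ℝ) ^ (2 / 3 - ρ) → RegL ((M + 2) * X) C₀ K U₂ q → ∀ r : ℕ, r < q →
    ∀ c : ℕ, 1 ≤ c → c ≤ M → ∀ σ : ℤ, (σ = 1 ∨ σ = -1) → ∀ K' : ℝ, 0 < K' → ∀ G : ℕ → ℝ,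
    (∀ m ∈ Icc 1 X, |G m| ≤ K') →
      ∑ v ∈ Icc 1 (X / q + 1), |∑ m ∈ Icc 1 X, G m *
        (lamI ((al r q v : ℤ) + σ * (c * m)) - lamzI z ((al r q v : ℤ) + σ * (c * m)))| ≤
      K' * ((X : ℝ) / Real.log X ^ A * ((X / q + 1 : ℕ) : ℝ)) := by
  classical
  obtain ⟨C₀, U₂, h0⟩ := errD_all (2 * (A + 1)) (A + 1) (ρ / 2) (by positivity)
  refine ⟨C₀, U₂, fun K => ?_⟩
  obtain ⟨B', hB'⟩ := h0 K
  refine ⟨B' + 1, fun E => ?_⟩
  obtain ⟨N₁, h1⟩ := hB' E
  obtain ⟨M2, hM2⟩ : ∃ M2 : ℕ, M2 = M + 2 := ⟨_, rfl⟩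
  obtain ⟨X₃, h3⟩ := Filter.eventually_atTop.1 (ev_log 1 (s := 1) (by norm_num) (2 ^ B' + 4 * (M2 : ℝ) ^ 2 + 100))
  refine ⟨N₁ + X₃ + 3, fun X hX z hzB hzE q hq1 hqX hReg r hr c hc1 hcM σ hσ K' hK' G hG => ?_⟩
  have hX1 : 1 ≤ X := by omega
  have hX0 : (0 : ℝ) < X := by exact_mod_cast hX1
  have hX1r : (1 : ℝ) ≤ X := by exact_mod_cast hX1
  obtain ⟨hLb, -⟩ := h3 X (by omega)
  rw [← hM2] at hReg
  obtain ⟨N, hN⟩ : ∃ N, N = M2 * X := ⟨_, rfl⟩
  rw [← hN] at hReg
  have hM2r : (2 : ℝ) ≤ M2 := by rw [hM2]; push_cast; linarith [Nat.cast_nonneg (α := ℝ) M]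
  have hXN : X ≤ N := by rw [hN, hM2]; nlinarith
  have h2XN : 2 * X ≤ N := by rw [hN, hM2]; nlinarith
  have hMXN : M * X + 2 * X = N := by rw [hN, hM2]; ring
  have hNr : (N : ℝ) = M2 * X := by rw [hN]; push_cast; ring
  have c1 := h1 N (by omega)
  have hL2 : Real.log X ≤ Real.log N := Real.log_le_log hX0 (by exact_mod_cast hXN)
  obtain ⟨L, hLd⟩ : ∃ L, L = Real.log (X : ℝ) := ⟨_, rfl⟩
  obtain ⟨L', hLd'⟩ : ∃ L', L' = Real.log (N : ℝ) := ⟨_, rfl⟩
  have hp2 : (0 : ℝ) < 2 ^ B' := by positivity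
  have hM4 : 0 < 4 * (M2 : ℝ) ^ 2 := by positivity
  rw [← hLd] at hLb hL2 hzB hzE ⊢
  have hL3 : L' ≤ 2 * L := by
    rw [hLd', hNr, Real.log_mul (by positivity) hX0.ne', ← hLd]
    have : Real.log (M2 : ℝ) ≤ M2 := (Real.log_le_sub_one_of_pos (by positivity)).trans (by linarith)
    nlinarith
  rw [← hLd'] at c1 hL2
  have hL100 : 100 ≤ L := by linarith
  have hL0 : 0 < L := by linarith
  have hL1 : 1 ≤ L := by linarith
  have hL0' : 0 < L' := by linarith
  have hq0 : (0 : ℝ) < q := by exact_mod_cast hq1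
  have : NeZero q := ⟨by omega⟩
  have hqXn : q ≤ X := by
    have h4 : (q : ℝ) ≤ (X : ℝ) ^ (1 : ℝ) := hqX.trans (Real.rpow_le_rpow_of_exponent_le hX1r (by linarith))
    rw [Real.rpow_one] at h4
    exact_mod_cast h4
  have hzB' : L' ^ B' ≤ z := by
    refine le_trans ?_ hzB
    calc L' ^ B' ≤ (2 * L) ^ B' := pow_le_pow_left₀ hL0'.le hL3 _
      _ = 2 ^ B' * L ^ B' := mul_pow _ _ _
      _ ≤ L * L ^ B' := mul_le_mul_of_nonneg_right (by linarith) (by positivity)
      _ = L ^ (B' + 1) := by ring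
  obtain ⟨rr, hPar, hsum, hms⟩ := c1 z hzB' (hzE.trans (pow_le_pow_left₀ hL0.le hL2 _))
  have hqN : (q : ℝ) ≤ (N : ℝ) ^ (2 / 3 - ρ / 2) := by
    refine hqX.trans ?_
    calc (X : ℝ) ^ (2 / 3 - ρ) ≤ (X : ℝ) ^ (2 / 3 - ρ / 2) := Real.rpow_le_rpow_of_exponent_le hX1r (by linarith)
      _ ≤ (N : ℝ) ^ (2 / 3 - ρ / 2) := Real.rpow_le_rpow hX0.le (by exact_mod_cast hXN) (by linarith)
  obtain ⟨V, hV⟩ : ∃ V, V = X / q + 1 := ⟨_, rfl⟩
  rw [← hV]
  have hqV : X ≤ q * V := by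
    rw [hV]
    have := Nat.div_add_mod X q
    have h5 := Nat.mod_lt X (show 0 < q by omega)
    nlinarith
  have hqVr : (X : ℝ) ≤ q * V := by exact_mod_cast hqV
  have hV0 : (0 : ℝ) < V := by
    have : 0 < V := by rw [hV]; exact Nat.succ_pos _
    exact_mod_cast this
  have hal : ∀ v ∈ Icc 1 V, al r q v ≤ 2 * X := by
    intro v hv
    rw [mem_Icc] at hv
    unfold al
    have h5 : q * (v - 1) ≤ X := by
      calc q * (v - 1) ≤ q * (X / q) := Nat.mul_le_mul_left _ (by omega)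
        _ ≤ X := Nat.mul_div_le X q
    omega
  have hali : ∀ v ∈ Icc 1 V, ∀ v' ∈ Icc 1 V, al r q v = al r q v' → v = v' := by
    intro v hv v' hv' h
    rw [mem_Icc] at hv hv'
    unfold al at h
    have h5 : q * (v - 1) = q * (v' - 1) := by omega
    have h6 := Nat.eq_of_mul_eq_mul_left (by omega : 0 < q) h5
    omega
  have hcm : ∀ m ∈ Icc 1 X, 1 ≤ c * m ∧ c * m ≤ M * X := by
    intro m hm
    rw [mem_Icc] at hm
    exact ⟨Nat.mul_pos (by omega) (by omega), Nat.mul_le_mul hcM hm.2⟩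
  have hcmi : ∀ m ∈ Icc 1 X, ∀ m' ∈ Icc 1 X, c * m = c * m' → m = m' := by
    intro m _ m' _ h
    exact Nat.eq_of_mul_eq_mul_left (by omega : 0 < c) h
  have hLN1 : 1 ≤ Real.log (N : ℝ) := by rw [← hLd']; linarith
  -- the size
  have hsize : √(V * ((N : ℝ) ^ 3 / (q * Real.log N ^ (2 * (A + 1))))) + V * (N / Real.log N ^ (A + 1)) ≤
      (X : ℝ) / L ^ A * V := by
    rw [← hLd']
    have e1 : √(V * ((N : ℝ) ^ 3 / (q * L' ^ (2 * (A + 1))))) ≤ (M2 : ℝ) ^ 2 * (X / L ^ (A + 1)) * V := by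
      rw [Real.sqrt_le_left (by positivity)]
      have e2 : (V : ℝ) * ((N : ℝ) ^ 3 / (q * L' ^ (2 * (A + 1)))) ≤
          V * ((N : ℝ) ^ 3 / (q * L ^ (2 * (A + 1)))) := by
        apply mul_le_mul_of_nonneg_left _ hV0.le
        apply div_le_div_of_nonneg_left (by positivity) (by positivity)
        apply mul_le_mul_of_nonneg_left _ hq0.le
        exact pow_le_pow_left₀ hL0.le hL2 _
      refine e2.trans ?_
      have e3 : (V : ℝ) * ((N : ℝ) ^ 3 / (q * L ^ (2 * (A + 1)))) =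
          (M2 : ℝ) ^ 3 * (V * X ^ 2 * X / (q * L ^ (2 * (A + 1)))) := by
        rw [hNr]
        ring
      have e4 : (V : ℝ) * X ^ 2 * X / (q * L ^ (2 * (A + 1))) ≤ V * X ^ 2 * (q * V) / (q * L ^ (2 * (A + 1))) := by
        apply div_le_div_of_nonneg_right _ (by positivity)
        exact mul_le_mul_of_nonneg_left hqVr (by positivity)
      have e5 : (V : ℝ) * X ^ 2 * (q * V) / (q * L ^ (2 * (A + 1))) = (X / L ^ (A + 1) * V) ^ 2 := by
        rw [show 2 * (A + 1) = (A + 1) + (A + 1) by ring, pow_add]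
        field_simp
      rw [e3]
      calc (M2 : ℝ) ^ 3 * (V * X ^ 2 * X / (q * L ^ (2 * (A + 1)))) ≤ (M2 : ℝ) ^ 4 * (X / L ^ (A + 1) * V) ^ 2 := by
            rw [← e5]
            apply mul_le_mul (pow_le_pow_right₀ (by linarith) (by norm_num)) e4 (by positivity) (by positivity)
        _ = ((M2 : ℝ) ^ 2 * (X / L ^ (A + 1)) * V) ^ 2 := by ring
    have e6 : (V : ℝ) * (N / L' ^ (A + 1)) ≤ (M2 : ℝ) ^ 2 * (X / L ^ (A + 1)) * V := by
      have e7 : (N : ℝ) / L' ^ (A + 1) ≤ N / L ^ (A + 1) := by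
        apply div_le_div_of_nonneg_left (by positivity) (by positivity)
        exact pow_le_pow_left₀ hL0.le hL2 _
      have e8 : (N : ℝ) / L ^ (A + 1) ≤ (M2 : ℝ) ^ 2 * (X / L ^ (A + 1)) := by
        rw [hNr, mul_div_assoc]
        apply mul_le_mul_of_nonneg_right _ (by positivity)
        nlinarith
      calc (V : ℝ) * (N / L' ^ (A + 1)) ≤ V * ((M2 : ℝ) ^ 2 * (X / L ^ (A + 1))) :=
            mul_le_mul_of_nonneg_left (e7.trans e8) hV0.le
        _ = _ := by ring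
    calc √(V * ((N : ℝ) ^ 3 / (q * L' ^ (2 * (A + 1))))) + V * (N / L' ^ (A + 1))
        ≤ (M2 : ℝ) ^ 2 * (X / L ^ (A + 1)) * V + (M2 : ℝ) ^ 2 * (X / L ^ (A + 1)) * V := add_le_add e1 e6
      _ = (2 * (M2 : ℝ) ^ 2 / L) * (X / L ^ A * V) := by
          rw [pow_succ]
          field_simp
          ring
      _ ≤ 1 * (X / L ^ A * V) := by
          apply mul_le_mul_of_nonneg_right _ (by positivity)
          rw [div_le_one hL0]
          linarith
      _ = _ := one_mul _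
  rcases hσ with hσ | hσ
  · -- `a + c n`
    have h6 := hone_core X N V z rr (A + 1) (2 * (A + 1)) q hLN1 (-(r : ZMod q)) (by rw [← hLd']; exact hsum)
      (fun F hF => by
        have := hms F hF q hqN hReg (-(r : ZMod q)) N N le_rfl le_rfl
        rw [← hLd']
        exact this)
      (fun m => c * m) (fun m hm => by
        have := hcm m hm
        rw [mem_Icc]
        omega) hcmi (fun v => -((al r q v : ℕ) : ℤ)) (fun v hv => by
        have h7 := hal v hv
        refine ⟨?_, ?_⟩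
        · rw [mem_Icc]
          omega
        · unfold al
          push_cast
          rw [ZMod.natCast_self]
          ring) (fun v hv v' hv' h => by
        apply hali v hv v' hv'
        omega) (fun v hv m hm => by
        have h7 := hal v hv
        have h8 := hcm m hm
        omega) K' hK' G hG
    refine le_trans (le_of_eq ?_) (h6.trans (mul_le_mul_of_nonneg_left hsize hK'.le))
    apply sum_congr rfl
    intro v _
    congr 1
    apply sum_congr rfl
    intro m _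
    have e : ((c * m : ℕ) : ℤ) - (-((al r q v : ℕ) : ℤ)) = (al r q v : ℤ) + σ * (c * m) := by
      rw [hσ]
      push_cast
      ring
    rw [e]
  · -- `a - c n`
    have h6 := hone_core X N V z rr (A + 1) (2 * (A + 1)) q hLN1 ((N : ZMod q) - (r : ZMod q))
      (by rw [← hLd']; exact hsum)
      (fun F hF => by
        have := hms F hF q hqN hReg ((N : ZMod q) - (r : ZMod q)) N N le_rfl le_rfl
        rw [← hLd']
        exact this)
      (fun m => N - c * m) (fun m hm => by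
        have := hcm m hm
        rw [mem_Icc]
        omega) (fun m hm m' hm' h => by
        apply hcmi m hm m' hm'
        have h7 := hcm m hm
        have h8 := hcm m' hm'
        omega) (fun v => (N : ℤ) - ((al r q v : ℕ) : ℤ)) (fun v hv => by
        have h7 := hal v hv
        refine ⟨?_, ?_⟩
        · rw [mem_Icc]
          omega
        · unfold al
          push_cast
          rw [ZMod.natCast_self]
          ring) (fun v hv v' hv' h => by
        apply hali v hv v' hv'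
        omega) (fun v hv m hm => by
        have h7 := hal v hv
        have h8 := hcm m hm
        omega) K' hK' G hG
    refine le_trans (le_of_eq ?_) (h6.trans (mul_le_mul_of_nonneg_left hsize hK'.le))
    apply sum_congr rfl
    intro v _
    congr 1
    apply sum_congr rfl
    intro m hm
    have h8 := hcm m hm
    have e : ((N - c * m : ℕ) : ℤ) - ((N : ℤ) - ((al r q v : ℕ) : ℤ)) = (al r q v : ℤ) + σ * (c * m) := by
      rw [hσ, Nat.cast_sub (by omega)]
      push_cast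
      ring
    rw [e]

end Pool.Agent.T9h57.TP
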