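import Pool.Agent.T9h57.TP.Sing
import Pool.Agent.T9h57.TP.Grid

set_option autoImplicit false

/-! The local densities of systems of linear polynomials. -/

namespace Pool.Agent.T9h57.TP

open Finset
open Pool.Agent.H373R2.T7

variable {k : ℕ}

/-- `ω(p)` for the polynomials `c_i n + h_i`, and `n` if `s` -/
def om (s : Bool) (c h : Fin k → ℕ) (p : ℕ) : ℕ :=
  ((range p).filter (fun r : ℕ => (s = true ∧ p ∣ r) ∨ ∃ i, p ∣ c i * r + h i)).card

/-- the bad primes -/
def badS (c h : Fin k → ℕ) : Finset ℕ :=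
  (univ.biUnion fun i => (h i).primeFactors) ∪
    (univ.filter (fun q : Fin k × Fin k => q.1 ≠ q.2)).biUnion fun q =>
      ((c q.1 : ℤ) * h q.2 - c q.2 * h q.1).natAbs.primeFactors

lemma card_badS (c h : Fin k → ℕ) (Y : ℕ) (h1 : ∀ i, h i ≤ Y)
    (h2 : ∀ i j, ((c i : ℤ) * h j - c j * h i).natAbs ≤ Y) :
    (badS c h).card ≤ (k + k * k) * Nat.log 2 Y := by
  have h3 : ∀ b : ℕ, b ≤ Y → b.primeFactors.card ≤ Nat.log 2 Y := by
    intro b hb
    rcases Nat.eq_zero_or_pos b with h | h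
    · rw [h]; simp
    · exact (omega_le_log _ (by omega)).trans (Nat.log_mono_right hb)
  unfold badS
  refine (card_union_le _ _).trans ?_
  rw [add_mul]
  apply add_le_add
  · refine card_biUnion_le.trans ((sum_le_sum fun i _ => h3 (h i) (h1 i)).trans ?_)
    simp
  · refine card_biUnion_le.trans ((sum_le_sum fun q _ => h3 _ (h2 q.1 q.2)).trans ?_)
    rw [sum_const, smul_eq_mul]
    apply Nat.mul_le_mul_right
    refine (card_filter_le _ _).trans ?_
    rw [card_univ, Fintype.card_prod, Fintype.card_fin]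

/-- the root of `c n + h` modulo `p` -/
noncomputable def rt (p c h : ℕ) [Fact p.Prime] : ℕ := (-(h : ZMod p) / (c : ZMod p)).val

lemma rt_iff {p c h : ℕ} [Fact p.Prime] (hc : ¬ p ∣ c) {r : ℕ} (hr : r < p) : p ∣ c * r + h ↔ r = rt p c h := by
  have hc0 : (c : ZMod p) ≠ 0 := by
    rw [Ne, ZMod.natCast_eq_zero_iff]
    exact hc
  have h1 : p ∣ c * r + h ↔ (c : ZMod p) * r + h = 0 := by
    rw [← ZMod.natCast_eq_zero_iff]
    push_cast
    exact Iff.rfl
  rw [h1]
  unfold rt
  constructor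
  · intro h2
    have h3 : -(h : ZMod p) / (c : ZMod p) = r := by
      rw [div_eq_iff hc0]
      linear_combination (-1 : ZMod p) * h2
    rw [h3, ZMod.val_natCast, Nat.mod_eq_of_lt hr]
  · intro h2
    have h3 : (r : ZMod p) = -(h : ZMod p) / (c : ZMod p) := by
      rw [h2, ZMod.natCast_val, ZMod.cast_id]
    rw [h3]
    field_simp
    ring

lemma rt_lt {p c h : ℕ} [Fact p.Prime] : rt p c h < p := ZMod.val_lt _

/-- the hypotheses on the local densities -/
theorem om_LD (s : Bool) (c h : Fin k → ℕ) (M : ℕ) (hc : ∀ i, 1 ≤ c i) (hM : ∀ i, c i ≤ M) (hh : ∀ i, 1 ≤ h i)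
    (hks : 1 ≤ k + s.toNat) (hnd : ∀ i j, i ≠ j → c i * h j ≠ c j * h i) :
    LD (om s c h) (k + s.toNat) (3 * (k + 1) + M + 1) (badS c h) := by
  classical
  have hst : s.toNat ≤ 1 := by cases s <;> simp
  refine ⟨hks, by omega, fun p => ?_, fun p hp hz => ?_, fun p hp hz hb => ?_⟩
  · unfold om
    exact (card_filter_le _ _).trans (by rw [card_range])
  · have : Fact p.Prime := ⟨hp⟩
    have hpc : ∀ i, ¬ p ∣ c i := fun i hd => by
      have h1 := Nat.le_of_dvd (by have := hc i; omega) hd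
      have h2 := hM i
      omega
    have hsub : (range p).filter (fun r : ℕ => (s = true ∧ p ∣ r) ∨ ∃ i, p ∣ c i * r + h i) ⊆
        (if s = true then {0} else ∅) ∪ univ.image (fun i => rt p (c i) (h i)) := by
      intro r hr
      rw [mem_filter, mem_range] at hr
      rw [mem_union, mem_image]
      rcases hr.2 with ⟨hs, hd⟩ | ⟨i, hi⟩
      · left
        rw [if_pos hs, mem_singleton]
        exact Nat.eq_zero_of_dvd_of_lt hd hr.1
      · right
        exact ⟨i, mem_univ _, ((rt_iff (hpc i) hr.1).1 hi).symm⟩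
    unfold om
    refine (card_le_card hsub).trans ((card_union_le _ _).trans ?_)
    have h1 : (univ.image (fun i => rt p (c i) (h i))).card ≤ k := by
      refine card_image_le.trans ?_
      rw [card_univ, Fintype.card_fin]
    have h2 : (if s = true then ({0} : Finset ℕ) else ∅).card ≤ s.toNat := by
      cases s <;> simp
    omega
  · have : Fact p.Prime := ⟨hp⟩
    have hpc : ∀ i, ¬ p ∣ c i := fun i hd => by
      have h1 := Nat.le_of_dvd (by have := hc i; omega) hd
      have h2 := hM i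
      omega
    have hph : ∀ i, ¬ p ∣ h i := by
      intro i hd
      apply hb
      unfold badS
      rw [mem_union, mem_biUnion]
      left
      exact ⟨i, mem_univ _, Nat.mem_primeFactors.2 ⟨hp, hd, by have := hh i; omega⟩⟩
    have hpd : ∀ i j, i ≠ j → ¬ (p : ℤ) ∣ (c i : ℤ) * h j - c j * h i := by
      intro i j hij hd
      apply hb
      unfold badS
      rw [mem_union, mem_biUnion, mem_biUnion]
      right
      refine ⟨(i, j), by simpa using hij, Nat.mem_primeFactors.2 ⟨hp, Int.natCast_dvd.1 hd, ?_⟩⟩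
      have h1 := hnd i j hij
      rw [Ne, Int.natAbs_eq_zero, sub_eq_zero]
      intro h2
      apply h1
      exact_mod_cast h2
    have hinj : Set.InjOn (fun i => rt p (c i) (h i)) (univ : Finset (Fin k)) := by
      intro i _ j _ hij
      by_contra hne
      simp only at hij
      apply hpd i j hne
      have h1 := (rt_iff (hpc i) rt_lt).2 (rfl : rt p (c i) (h i) = rt p (c i) (h i))
      have h2 := (rt_iff (hpc j) rt_lt).2 (rfl : rt p (c j) (h j) = rt p (c j) (h j))
      rw [← hij] at h2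
      have h3 : (p : ℤ) ∣ ((c i * rt p (c i) (h i) + h i : ℕ) : ℤ) := by exact_mod_cast h1
      have h4 : (p : ℤ) ∣ ((c j * rt p (c i) (h i) + h j : ℕ) : ℤ) := by exact_mod_cast h2
      have h5 : (c i : ℤ) * h j - c j * h i = c i * ((c j * rt p (c i) (h i) + h j : ℕ) : ℤ) -
          c j * ((c i * rt p (c i) (h i) + h i : ℕ) : ℤ) := by
        push_cast
        ring
      rw [h5]
      exact dvd_sub (h4.mul_left _) (h3.mul_left _)
    have hsub : (if s = true then {0} else ∅) ∪ univ.image (fun i => rt p (c i) (h i)) ⊆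
        (range p).filter (fun r : ℕ => (s = true ∧ p ∣ r) ∨ ∃ i, p ∣ c i * r + h i) := by
      intro r hr
      rw [mem_filter, mem_range]
      rw [mem_union, mem_image] at hr
      rcases hr with hr | ⟨i, _, hi⟩
      · split_ifs at hr with hs
        · rw [mem_singleton] at hr
          rw [hr]
          exact ⟨hp.pos, Or.inl ⟨hs, dvd_zero _⟩⟩
        · exact absurd hr (notMem_empty _)
      · have h1 : r < p := by rw [← hi]; exact rt_lt
        exact ⟨h1, Or.inr ⟨i, (rt_iff (hpc i) h1).2 hi.symm⟩⟩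
    have hdis : Disjoint (if s = true then ({0} : Finset ℕ) else ∅) (univ.image (fun i => rt p (c i) (h i))) := by
      rw [disjoint_left]
      intro r hr hr2
      split_ifs at hr with hs
      · rw [mem_singleton] at hr
        rw [mem_image] at hr2
        obtain ⟨i, _, hi⟩ := hr2
        have h1 := (rt_iff (hpc i) rt_lt).2 (rfl : rt p (c i) (h i) = rt p (c i) (h i))
        rw [hi, hr, mul_zero, zero_add] at h1
        exact hph i h1
      · exact absurd hr (notMem_empty _)
    unfold om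
    refine le_trans ?_ (card_le_card hsub)
    rw [card_union_of_disjoint hdis, card_image_of_injOn hinj, card_univ, Fintype.card_fin]
    cases s <;> simp [Nat.add_comm]

/-- the weight -/
noncomputable def wS (s : Bool) (n : ℕ) : ℝ := if s = true then lamP (n : ℤ) else 1

/-- the density -/
noncomputable def dS (s : Bool) (Q : ℕ → ℕ → Prop) (z : ℕ) : ℝ :=
  if s = true then ∏ p ∈ pz z, (1 - (rhoA Q p : ℝ) / (p - 1 : ℝ)) else ∏ p ∈ pz z, (1 - (nuB Q p : ℝ) / p)

/-- primes as arguments -/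
lemma wd_lamP (c : ℕ) (hc : 1 ≤ c) : WD (fun n : ℕ => lamP (n : ℤ))
    (fun Q z => ∏ p ∈ pz z, (1 - (rhoA Q p : ℝ) / (p - 1 : ℝ))) c := by
  classical
  have h0 := wd_lam c hc
  refine ⟨fun n => lamP_nonneg _, fun n hn => ?_, h0.d0, h0.d1, fun E U => ?_⟩
  · refine (lamP_le _).trans ?_
    have h1 : lamI (n : ℤ) = ArithmeticFunction.vonMangoldt n := by
      unfold lamI
      rw [if_pos (by exact_mod_cast hn), Int.toNat_natCast]
    rw [h1]
    exact h0.le n hn
  · obtain ⟨N₁, h1⟩ := h0.main E (U + 1)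
    obtain ⟨N₂, h2⟩ := ev_log' (U + 2) 4
    obtain ⟨N₃, h3⟩ := ev_L' 2
    refine ⟨N₁ + N₂ + N₃ + 1, fun N hN z hz hzE Q hQ => ?_⟩
    have c1 := h1 N (by omega) z hz hzE Q hQ
    have c2 := h2 N (by omega)
    have c3 := h3 N (by omega)
    have hN1 : 1 ≤ N := by omega
    have hN0 : (0 : ℝ) < N := by exact_mod_cast hN1
    obtain ⟨L, hL⟩ : ∃ L, L = Real.log (N : ℝ) := ⟨_, rfl⟩
    rw [← hL] at c1 c2 c3 ⊢
    have hL0 : 0 < L := by linarith
    have hss : √(N : ℝ) * √(N : ℝ) = N := Real.mul_self_sqrt hN0.le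
    have h4 : |∑ n ∈ (Icc 1 N).filter (fun n : ℕ => ∀ p ∈ pz z, ¬ Q p n), lamP (n : ℤ) -
        ∑ n ∈ (Icc 1 N).filter (fun n : ℕ => ∀ p ∈ pz z, ¬ Q p n), ArithmeticFunction.vonMangoldt n| ≤
        2 * √(N : ℝ) * L := by
      rw [← sum_sub_distrib]
      refine (abs_sum_le_sum_abs _ _).trans ?_
      have h5 := pp_inj N N hN1 (fun n => (n : ℤ)) (fun m hm => by
        rw [mem_Icc] at hm
        exact_mod_cast hm.2) (fun m _ m' _ h => by exact_mod_cast h)
      rw [← hL] at h5
      refine le_trans ?_ h5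
      have h6 : ∀ n ∈ (Icc 1 N).filter (fun n : ℕ => ∀ p ∈ pz z, ¬ Q p n),
          |lamP (n : ℤ) - ArithmeticFunction.vonMangoldt n| = lamI (n : ℤ) - lamP (n : ℤ) := by
        intro n hn
        rw [mem_filter, mem_Icc] at hn
        have h1 : lamI (n : ℤ) = ArithmeticFunction.vonMangoldt n := by
          unfold lamI
          rw [if_pos (by exact_mod_cast hn.1.1), Int.toNat_natCast]
        rw [← h1, abs_sub_comm, abs_of_nonneg (sub_nonneg.2 (lamP_le _))]
      rw [sum_congr rfl h6]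
      apply sum_le_sum_of_subset_of_nonneg (filter_subset _ _)
      intro n _ _
      exact sub_nonneg.2 (lamP_le _)
    have h7 : 2 * √(N : ℝ) * L ≤ (1 / 2) * (N / L ^ U) := by
      rw [mul_div_assoc', le_div_iff₀ (by positivity)]
      have h8 : 4 * L ^ (U + 1) ≤ √(N : ℝ) := by
        refine le_trans ?_ c2
        apply mul_le_mul_of_nonneg_left _ (by norm_num)
        exact pow_le_pow_right₀ (by linarith) (by omega)
      calc 2 * √(N : ℝ) * L * L ^ U = (1 / 2) * (√(N : ℝ) * (4 * L ^ (U + 1))) := by ring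
        _ ≤ (1 / 2) * (√(N : ℝ) * √(N : ℝ)) := by
            apply mul_le_mul_of_nonneg_left _ (by norm_num)
            exact mul_le_mul_of_nonneg_left h8 (Real.sqrt_nonneg _)
        _ = 1 / 2 * N := by rw [hss]
    have h8 : (N : ℝ) / L ^ (U + 1) ≤ (1 / 2) * (N / L ^ U) := by
      rw [pow_succ, ← div_div]
      rw [div_le_iff₀ hL0]
      have : 0 ≤ (N : ℝ) / L ^ U := by positivity
      nlinarith
    have h9 := abs_add_le (∑ n ∈ (Icc 1 N).filter (fun n : ℕ => ∀ p ∈ pz z, ¬ Q p n), lamP (n : ℤ) -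
        ∑ n ∈ (Icc 1 N).filter (fun n : ℕ => ∀ p ∈ pz z, ¬ Q p n), ArithmeticFunction.vonMangoldt n)
        (∑ n ∈ (Icc 1 N).filter (fun n : ℕ => ∀ p ∈ pz z, ¬ Q p n), ArithmeticFunction.vonMangoldt n -
          N * ∏ p ∈ pz z, (1 - (rhoA Q p : ℝ) / (p - 1 : ℝ)))
    have e : ∑ n ∈ (Icc 1 N).filter (fun n : ℕ => ∀ p ∈ pz z, ¬ Q p n), lamP (n : ℤ) -
        N * ∏ p ∈ pz z, (1 - (rhoA Q p : ℝ) / (p - 1 : ℝ)) =
        (∑ n ∈ (Icc 1 N).filter (fun n : ℕ => ∀ p ∈ pz z, ¬ Q p n), lamP (n : ℤ) -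
        ∑ n ∈ (Icc 1 N).filter (fun n : ℕ => ∀ p ∈ pz z, ¬ Q p n), ArithmeticFunction.vonMangoldt n) +
        (∑ n ∈ (Icc 1 N).filter (fun n : ℕ => ∀ p ∈ pz z, ¬ Q p n), ArithmeticFunction.vonMangoldt n -
          N * ∏ p ∈ pz z, (1 - (rhoA Q p : ℝ) / (p - 1 : ℝ))) := by ring
    rw [e]
    linarith

lemma wd_S (s : Bool) (c : ℕ) (hc : 1 ≤ c) : WD (wS s) (dS s) c := by
  cases s with
  | true =>
    have h := wd_lamP c hc
    have e1 : wS true = fun n : ℕ => lamP (n : ℤ) := by funext n; simp [wS]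
    have e2 : dS true = fun Q z => ∏ p ∈ pz z, (1 - (rhoA Q p : ℝ) / (p - 1 : ℝ)) := by funext Q z; simp [dS]
    rw [e1, e2]
    exact h
  | false =>
    have h := wd_one c hc
    have e1 : wS false = fun _ : ℕ => (1 : ℝ) := by funext n; simp [wS]
    have e2 : dS false = fun Q z => ∏ p ∈ pz z, (1 - (nuB Q p : ℝ) / p) := by funext Q z; simp [dS]
    rw [e1, e2]
    exact h

lemma sysQ_lf (c a : Fin k → ℕ) (p r : ℕ) : sysQ (lf c) (fun _ => 1) a p r ↔ ∃ i, p ∣ c i * r + a i := by
  unfold sysQ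
  simp only [vl_lf]
  apply exists_congr
  intro i
  have e : (a i : ℤ) + 1 * (c i * r) = ((c i * r + a i : ℕ) : ℤ) := by push_cast; ring
  rw [e, Int.natCast_dvd_natCast]

/-- the density is the partial Euler product -/
lemma SS_eq (s : Bool) (c a : Fin k → ℕ) (z : ℕ) :
    SS (dS s) c (fun _ => 1) z a = PR (om s c a) (k + s.toNat) z := by
  classical
  unfold SS PR
  have hV : ((Vz z)⁻¹) ^ k = ∏ p ∈ pz z, ((1 - 1 / (p : ℝ))⁻¹) ^ k := by
    unfold Vz
    rw [← prod_inv_distrib, ← prod_pow]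
  rw [hV]
  cases s with
  | true =>
    have e2 : dS true (sysQ (lf c) (fun _ => 1) a) z =
      ∏ p ∈ pz z, (1 - (rhoA (sysQ (lf c) (fun _ => 1) a) p : ℝ) / (p - 1 : ℝ)) := by simp [dS]
    rw [e2, ← prod_mul_distrib]
    apply prod_congr rfl
    intro p hp
    have hpp := (mem_pz.1 hp).2
    have hp2 : (2 : ℝ) ≤ p := by exact_mod_cast hpp.two_le
    have hp0 : (0 : ℝ) < p := by linarith
    have hp1 : (0 : ℝ) < (p : ℝ) - 1 := by linarith
    have h1 : om true c a p = rhoA (sysQ (lf c) (fun _ => 1) a) p + 1 := by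
      unfold om rhoA
      have h2 : (range p).filter (fun r : ℕ => (true = true ∧ p ∣ r) ∨ ∃ i, p ∣ c i * r + a i) =
          insert 0 ((range p).filter (fun r => ¬ p ∣ r ∧ sysQ (lf c) (fun _ => 1) a p r)) := by
        ext r
        rw [mem_insert, mem_filter, mem_filter, mem_range, sysQ_lf]
        constructor
        · rintro ⟨h3, h4⟩
          by_cases h5 : p ∣ r
          · left; exact Nat.eq_zero_of_dvd_of_lt h5 h3
          · right
            refine ⟨h3, h5, ?_⟩
            rcases h4 with h4 | h4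
            · exact absurd h4.2 h5
            · exact h4
        · rintro (h3 | ⟨h3, h4, h5⟩)
          · rw [h3]
            exact ⟨hpp.pos, Or.inl ⟨rfl, dvd_zero _⟩⟩
          · exact ⟨h3, Or.inr h5⟩
      rw [h2, card_insert_of_notMem]
      rw [mem_filter]
      rintro ⟨_, h3, _⟩
      exact h3 (dvd_zero _)
    unfold Fv
    rw [h1]
    obtain ⟨t, ht⟩ : ∃ t, t = 1 - 1 / (p : ℝ) := ⟨_, rfl⟩
    have ht0 : 0 < t := by rw [ht, sub_pos, div_lt_one hp0]; linarith
    have key : 1 - (rhoA (sysQ (lf c) (fun _ => 1) a) p : ℝ) / (p - 1 : ℝ) =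
        (1 - ((rhoA (sysQ (lf c) (fun _ => 1) a) p + 1 : ℕ) : ℝ) / p) / t := by
      rw [ht]
      push_cast
      field_simp
      ring
    rw [key, ← ht, show k + Bool.toNat true = k + 1 by rfl, pow_succ, inv_pow]
    field_simp
  | false =>
    have e2 : dS false (sysQ (lf c) (fun _ => 1) a) z =
      ∏ p ∈ pz z, (1 - (nuB (sysQ (lf c) (fun _ => 1) a) p : ℝ) / p) := by simp [dS]
    rw [e2, ← prod_mul_distrib]
    apply prod_congr rfl
    intro p hp
    have hpp := (mem_pz.1 hp).2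
    have hp2 : (2 : ℝ) ≤ p := by exact_mod_cast hpp.two_le
    have hp0 : (0 : ℝ) < p := by linarith
    have h1 : om false c a p = nuB (sysQ (lf c) (fun _ => 1) a) p := by
      unfold om nuB
      congr 1
      ext r
      rw [mem_filter, mem_filter, sysQ_lf]
      simp
    unfold Fv
    rw [h1, show k + Bool.toNat false = k by rfl, div_eq_mul_inv _ ((1 - 1 / (p : ℝ)) ^ k), inv_pow, mul_comm]

end Pool.Agent.T9h57.TP
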