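import Pool.Agent.H373R2.T7.SingLim
import Pool.Agent.H373R2.T7.Sys4

set_option autoImplicit false

/-! Convergence of the Euler products, with a bound for the tails. Adapted from `H373R2/T7/SingTail` and
`H373R2/T7/SingLim`. -/

namespace Pool.Agent.T9h57.TP

open Finset
open Pool.Agent.H373R2.T7 (pz mem_pz exp_low tail_sq omega_le_log)

/-- local factor -/
noncomputable def Fv (ν : ℕ → ℕ) (m p : ℕ) : ℝ := (1 - (ν p : ℝ) / p) / (1 - 1 / (p : ℝ)) ^ m

/-- partial product -/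
noncomputable def PR (ν : ℕ → ℕ) (m z : ℕ) : ℝ := ∏ p ∈ pz z, Fv ν m p

/-- the number of roots is `m` for the large primes outside of `bad` -/
structure LD (ν : ℕ → ℕ) (m z0 : ℕ) (bad : Finset ℕ) : Prop where
  m1 : 1 ≤ m
  z1 : 3 * m ≤ z0
  le : ∀ p, ν p ≤ p
  up : ∀ p, p.Prime → z0 ≤ p → ν p ≤ m
  lo : ∀ p, p.Prime → z0 ≤ p → p ∉ bad → m ≤ ν p

variable {ν : ℕ → ℕ} {m z0 : ℕ} {bad : Finset ℕ}

lemma Fv_bounds (h : LD ν m z0 bad) (p : ℕ) (hp : p.Prime) (h3 : z0 ≤ p) :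
    Real.exp (-((m : ℝ) ^ 2 * (1 / (p : ℝ) ^ 2))) ≤ Fv ν m p ∧
    Fv ν m p ≤ Real.exp (if p ∈ bad then 2 * (m : ℝ) / p else 0) := by
  have hp2 : (2 : ℝ) ≤ p := by exact_mod_cast hp.two_le
  have hp0 : (0 : ℝ) < p := by linarith
  have hm3 : (3 * m : ℝ) ≤ p := by exact_mod_cast h.z1.trans h3
  have hm1 : (1 : ℝ) ≤ m := by exact_mod_cast h.m1
  have hq : 0 < 1 - 1 / (p : ℝ) := by rw [sub_pos, div_lt_one hp0]; linarith
  have hq1 : 1 - 1 / (p : ℝ) ≤ 1 := by
    have : 0 ≤ 1 / (p : ℝ) := by positivity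
    linarith
  have hy : (m : ℝ) / p ≤ 1 / 3 := by rw [div_le_iff₀ hp0]; linarith
  have hy0 : 0 ≤ (m : ℝ) / p := by positivity
  have hbern : 1 - (m : ℝ) / p ≤ (1 - 1 / (p : ℝ)) ^ m := by
    have h4 := one_add_mul_le_pow (a := -(1 / (p : ℝ))) (by linarith) m
    have e : 1 + (m : ℝ) * -(1 / (p : ℝ)) = 1 - m / p := by ring
    rw [e] at h4
    exact h4
  have hνm : (ν p : ℝ) ≤ m := by exact_mod_cast h.up p hp h3
  have hν0 : (0 : ℝ) ≤ ν p := Nat.cast_nonneg _
  constructor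
  · unfold Fv
    rw [le_div_iff₀ (by positivity)]
    have h4 := exp_low hy0 hy
    have h5 : (1 - 1 / (p : ℝ)) ^ m ≤ Real.exp (-((m : ℝ) / p)) := by
      have h6 : 1 - 1 / (p : ℝ) ≤ Real.exp (-(1 / p)) := by
        have := Real.add_one_le_exp (-(1 / (p : ℝ)))
        linarith
      calc (1 - 1 / (p : ℝ)) ^ m ≤ (Real.exp (-(1 / p))) ^ m := pow_le_pow_left₀ hq.le h6 m
        _ = Real.exp (-((m : ℝ) / p)) := by rw [← Real.exp_nat_mul]; congr 1; ring
    have h6 : 1 - (m : ℝ) / p ≤ 1 - (ν p : ℝ) / p := by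
      have := div_le_div_of_nonneg_right hνm hp0.le
      linarith
    calc Real.exp (-((m : ℝ) ^ 2 * (1 / (p : ℝ) ^ 2))) * (1 - 1 / (p : ℝ)) ^ m
        ≤ Real.exp (-((m : ℝ) ^ 2 * (1 / (p : ℝ) ^ 2))) * Real.exp (-((m : ℝ) / p)) := mul_le_mul_of_nonneg_left h5 (Real.exp_pos _).le
      _ = Real.exp (-((m : ℝ) / p + ((m : ℝ) / p) ^ 2)) := by rw [← Real.exp_add]; congr 1; ring
      _ ≤ 1 - (m : ℝ) / p := h4
      _ ≤ _ := h6
  · unfold Fv
    split_ifs with hb
    · have h4 : 1 - (ν p : ℝ) / p ≤ 1 := by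
        have : 0 ≤ (ν p : ℝ) / p := by positivity
        linarith
      rw [div_le_iff₀ (by positivity)]
      have h5 : 1 + 2 * ((m : ℝ) / p) ≤ Real.exp (2 * (m : ℝ) / p) := by
        have := Real.add_one_le_exp (2 * (m : ℝ) / p)
        have e : 2 * (m : ℝ) / p = 2 * ((m : ℝ) / p) := by ring
        rw [e] at this ⊢
        linarith
      have h6 : 1 ≤ (1 + 2 * ((m : ℝ) / p)) * (1 - (m : ℝ) / p) := by nlinarith
      calc 1 - (ν p : ℝ) / p ≤ 1 := h4
        _ ≤ (1 + 2 * ((m : ℝ) / p)) * (1 - (m : ℝ) / p) := h6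
        _ ≤ Real.exp (2 * (m : ℝ) / p) * (1 - 1 / (p : ℝ)) ^ m := by
            apply mul_le_mul h5 hbern (by linarith) (Real.exp_pos _).le
    · rw [Real.exp_zero, div_le_one (by positivity)]
      have h4 := h.lo p hp h3 hb
      have h5 : (m : ℝ) ≤ ν p := by exact_mod_cast h4
      have := div_le_div_of_nonneg_right h5 hp0.le
      linarith

lemma PR_nonneg (h : LD ν m z0 bad) (z : ℕ) : 0 ≤ PR ν m z := by
  unfold PR
  apply prod_nonneg
  intro p hp
  have hpp := (mem_pz.1 hp).2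
  have hp2 : (2 : ℝ) ≤ p := by exact_mod_cast hpp.two_le
  have hp0 : (0 : ℝ) < p := by linarith
  have hq : 0 < 1 - 1 / (p : ℝ) := by rw [sub_pos, div_lt_one hp0]; linarith
  unfold Fv
  apply div_nonneg _ (by positivity)
  rw [sub_nonneg, div_le_one hp0]
  exact_mod_cast h.le p

/-- the tail -/
lemma tail_bd (h : LD ν m z0 bad) (z z' : ℕ) (hz : z0 ≤ z) (hzz : z ≤ z') :
    ∃ R : ℝ, PR ν m z' = PR ν m z * R ∧ Real.exp (-((m : ℝ) ^ 2 / z)) ≤ R ∧
      R ≤ Real.exp (2 * (m : ℝ) * bad.card / z) := by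
  have hz00 : 0 < z := by
    have := h.m1
    have := h.z1
    omega
  have hz0 : (0 : ℝ) < z := by exact_mod_cast hz00
  refine ⟨∏ p ∈ (pz z').filter (fun p => ¬ p ≤ z), Fv ν m p, ?_, ?_, ?_⟩
  · unfold PR
    rw [← prod_filter_mul_prod_filter_not (pz z') (fun p => p ≤ z)]
    congr 1
    apply prod_congr _ (fun _ _ => rfl)
    ext p
    rw [mem_filter, mem_pz, mem_pz]
    constructor
    · rintro ⟨⟨_, h1⟩, h2⟩; exact ⟨h2, h1⟩
    · rintro ⟨h1, h2⟩; exact ⟨⟨h1.trans hzz, h2⟩, h1⟩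
  · have h1 : ∀ p ∈ (pz z').filter (fun p => ¬ p ≤ z), Real.exp (-((m : ℝ) ^ 2 * (1 / (p : ℝ) ^ 2))) ≤ Fv ν m p := by
      intro p hp
      rw [mem_filter, mem_pz] at hp
      exact (Fv_bounds h p hp.1.2 (by omega)).1
    refine le_trans ?_ (prod_le_prod (fun p _ => (Real.exp_pos _).le) h1)
    rw [← Real.exp_sum]
    apply Real.exp_le_exp.2
    rw [sum_neg_distrib, ← mul_sum]
    have h2 : ∑ p ∈ (pz z').filter (fun p => ¬ p ≤ z), 1 / (p : ℝ) ^ 2 ≤ ∑ n ∈ Ioc z z', 1 / (n : ℝ) ^ 2 := by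
      apply sum_le_sum_of_subset_of_nonneg
      · intro p hp
        rw [mem_filter, mem_pz] at hp
        rw [mem_Ioc]
        omega
      · intro _ _ _; positivity
    have h3 := tail_sq z z' hz00 hzz
    have h4 : (0 : ℝ) ≤ 1 / (z' : ℝ) := by positivity
    have h5 : (m : ℝ) ^ 2 * ∑ p ∈ (pz z').filter (fun p => ¬ p ≤ z), 1 / (p : ℝ) ^ 2 ≤ (m : ℝ) ^ 2 * (1 / z) :=
      mul_le_mul_of_nonneg_left (by linarith) (by positivity)
    rw [mul_one_div] at h5
    linarith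
  · have h1 : ∀ p ∈ (pz z').filter (fun p => ¬ p ≤ z), Fv ν m p ≤ Real.exp (if p ∈ bad then 2 * (m : ℝ) / p else 0) := by
      intro p hp
      rw [mem_filter, mem_pz] at hp
      exact (Fv_bounds h p hp.1.2 (by omega)).2
    have h0 : ∀ p ∈ (pz z').filter (fun p => ¬ p ≤ z), 0 ≤ Fv ν m p := by
      intro p hp
      rw [mem_filter, mem_pz] at hp
      exact (Real.exp_pos _).le.trans (Fv_bounds h p hp.1.2 (by omega)).1
    refine (prod_le_prod h0 h1).trans ?_
    rw [← Real.exp_sum]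
    apply Real.exp_le_exp.2
    rw [← sum_filter]
    calc ∑ p ∈ ((pz z').filter (fun p => ¬ p ≤ z)).filter (fun p => p ∈ bad), 2 * (m : ℝ) / p
        ≤ ∑ _p ∈ ((pz z').filter (fun p => ¬ p ≤ z)).filter (fun p => p ∈ bad), 2 * (m : ℝ) / z := by
          apply sum_le_sum
          intro p hp
          rw [mem_filter, mem_filter] at hp
          apply div_le_div_of_nonneg_left (by positivity) hz0
          exact_mod_cast (by omega : z ≤ p)
      _ = ((((pz z').filter (fun p => ¬ p ≤ z)).filter (fun p => p ∈ bad)).card : ℝ) * (2 * (m : ℝ) / z) := by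
          rw [sum_const, nsmul_eq_mul]
      _ ≤ (bad.card : ℝ) * (2 * (m : ℝ) / z) := by
          apply mul_le_mul_of_nonneg_right _ (by positivity)
          exact_mod_cast card_le_card (fun p hp => (mem_filter.1 hp).2)
      _ = _ := by ring

/-- the constant in the tail bound -/
noncomputable def Kb (m : ℕ) (bad : Finset ℕ) : ℝ := (m : ℝ) ^ 2 + 4 * (m : ℝ) * bad.card

lemma step_bd (h : LD ν m z0 bad) (z z' : ℕ) (hz : z0 ≤ z) (hK : Kb m bad ≤ z) (hzz : z ≤ z') :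
    |PR ν m z' - PR ν m z| ≤ PR ν m z * (Kb m bad / z) := by
  obtain ⟨R, hR, h1, h2⟩ := tail_bd h z z' hz hzz
  have hz00 : 0 < z := by
    have := h.m1
    have := h.z1
    omega
  have hz0 : (0 : ℝ) < z := by exact_mod_cast hz00
  have hs := PR_nonneg h z
  have hA : 0 ≤ (m : ℝ) ^ 2 := by positivity
  have hB : 0 ≤ 4 * (m : ℝ) * bad.card := by positivity
  have hKd : Kb m bad = (m : ℝ) ^ 2 + 4 * (m : ℝ) * bad.card := rfl
  have e1 : 1 - Kb m bad / z ≤ R := by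
    refine le_trans ?_ h1
    have h3 := Real.add_one_le_exp (-((m : ℝ) ^ 2 / z))
    have h4 : (m : ℝ) ^ 2 / z ≤ Kb m bad / z := div_le_div_of_nonneg_right (by linarith) hz0.le
    linarith
  have e2 : R ≤ 1 + Kb m bad / z := by
    refine h2.trans ?_
    set t := 2 * (m : ℝ) * bad.card / z with ht
    have ht0 : 0 ≤ t := by positivity
    have ht1 : 2 * t ≤ Kb m bad / z := by
      rw [ht, mul_div_assoc']
      apply div_le_div_of_nonneg_right _ hz0.le
      linarith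
    have ht2 : Kb m bad / z ≤ 1 := by rw [div_le_one hz0]; exact hK
    have h3 := Real.abs_exp_sub_one_sub_id_le (x := t) (by rw [abs_of_nonneg ht0]; linarith)
    have h4 := (abs_le.1 h3).2
    nlinarith
  have e : PR ν m z' - PR ν m z = PR ν m z * (R - 1) := by rw [hR]; ring
  rw [e, abs_mul, abs_of_nonneg hs]
  apply mul_le_mul_of_nonneg_left _ hs
  rw [abs_le]
  constructor <;> linarith

theorem PR_limit (h : LD ν m z0 bad) :
    ∃ S : ℝ, Filter.Tendsto (fun z => PR ν m z) Filter.atTop (nhds S) ∧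
      ∀ z : ℕ, z0 ≤ z → Kb m bad ≤ z → |S - PR ν m z| ≤ PR ν m z * (Kb m bad / z) := by
  have hK0 : 0 ≤ Kb m bad := by unfold Kb; positivity
  have hz00 : 0 < z0 := by
    have := h.m1
    have := h.z1
    omega
  have hcau : CauchySeq (fun z => PR ν m z) := by
    rw [Metric.cauchySeq_iff']
    intro ε hε
    set z1 : ℕ := max z0 ⌈Kb m bad⌉₊ with hz1
    have hz1K : Kb m bad ≤ z1 := (Nat.le_ceil _).trans (by exact_mod_cast le_max_right _ _)
    have hz13 : z0 ≤ z1 := le_max_left _ _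
    have hs0 := PR_nonneg h z1
    obtain ⟨M, hM⟩ := exists_nat_gt (2 * PR ν m z1 * Kb m bad / ε)
    refine ⟨max z1 (M + 1), fun n hn => ?_⟩
    set Z := max z1 (M + 1) with hZ
    have hZ0 : z1 ≤ Z := le_max_left _ _
    have hZM : M + 1 ≤ Z := le_max_right _ _
    have hZr : (0 : ℝ) < Z := by exact_mod_cast (by omega : 0 < Z)
    have h1 := step_bd h Z n (hz13.trans hZ0) (hz1K.trans (by exact_mod_cast hZ0)) hn
    have h2 := step_bd h z1 Z hz13 hz1K hZ0
    have hz1r : (0 : ℝ) < z1 := by exact_mod_cast (by omega : 0 < z1)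
    have h3 : PR ν m Z ≤ 2 * PR ν m z1 := by
      have h4 := (abs_le.1 h2).2
      have h5 : Kb m bad / z1 ≤ 1 := by rw [div_le_one hz1r]; exact hz1K
      nlinarith
    rw [Real.dist_eq]
    refine lt_of_le_of_lt h1 ?_
    have h4 : PR ν m Z * (Kb m bad / Z) ≤ 2 * PR ν m z1 * (Kb m bad / Z) := mul_le_mul_of_nonneg_right h3 (by positivity)
    refine lt_of_le_of_lt h4 ?_
    rw [mul_div_assoc', div_lt_iff₀ hZr]
    rw [div_lt_iff₀ hε] at hM
    have h5 : (M : ℝ) ≤ Z := by exact_mod_cast (by omega : M ≤ Z)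
    nlinarith
  obtain ⟨S, hS⟩ := cauchySeq_tendsto_of_complete hcau
  refine ⟨S, hS, fun z hz hK => ?_⟩
  have h1 : Filter.Tendsto (fun z' => |PR ν m z' - PR ν m z|) Filter.atTop (nhds |S - PR ν m z|) :=
    (hS.sub_const _).abs
  apply le_of_tendsto h1
  filter_upwards [Filter.eventually_ge_atTop z] with z' hz'
  exact step_bd h z z' hz hK hz'

end Pool.Agent.T9h57.TP
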